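import Pool.Agent.H547.C9.R

set_option autoImplicit false
set_option linter.unusedSectionVars false

/-!
# The relation: elimination, degrees, evaluation
-/

namespace Pool.Agent.H547.C9.Rel

open Finset PowerSeries Pool.Agent.H547.P3 Pool.Agent.H547.P4 Pool.Agent.H547.C9

variable {A : Type} [CommRing A] {p n : ℕ} [hp : Fact p.Prime]

theorem comb {σ : A⟦X⟧} {x0 x1 e ν h : A} {α δ γ ζ : ℕ → A} (hP : (p : A) ^ 2 = 0) (hn : p = 2 * n + 1) (hh : 2 * h = 1)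
    (hz : x0 ^ p = x1 * e) (he : e = 1 + p * ν)
    (hs : σ ^ 2 * (1 + 216 * X) = 1) (hsc : constantCoeff σ = 1)
    (hv3 : ∀ κ j : ℕ, j < p → (v3 (p * κ + j) : A) = v3 κ * (α j + κ * δ j)) (hδ : ∀ j < p, ∃ b, δ j = p * b)
    (hv : ∀ κ j : ℕ, j < p → (v1 (p * κ + j) : A) = v1 κ * (γ j + κ * ζ j)) (hζ : ∀ j < p, ∃ b, ζ j = p * b)
    (hbf : ∀ K, X ^ K ∣ phi A ^ 2 - GF A 0 K)
    (hbc : ∀ K, X ^ K ∣ phi A ^ 2 - GC σ 0 K) (K : ℕ) :
    X ^ (p * K) ∣ R1 p n (C x0 * X) (C x1 * X ^ p) (C e) (fun j => C (α j)) (fun j => C (δ j)) (fun j => C (γ j)) (fun j => C (ζ j)) *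
        fT p x1 (th (phi A ^ 2)) +
      R0 p n (C x0 * X) (C x1 * X ^ p) (C e) (C h) (fun j => C (α j)) (fun j => C (γ j)) (fun j => C (ζ j)) * fT p x1 (phi A ^ 2) := by
  have hodd : Odd p := ⟨n, hn⟩
  have s1 := side_f hP hodd hz he hv3 hδ hbf K
  have s2 := side_c hP hn hh hz he hs hsc hv hζ hbc K
  have a0 := fT_dvd (p := p) x1 (hbf K)
  have a1 := fT_dvd (p := p) x1 (th_dvd (hbf K))
  have b0 := fT_dvd (p := p) x1 (hbc K)
  have b1 := fT_dvd (p := p) x1 (th_dvd (hbc K))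
  rw [map_sub] at a0 b0
  rw [th_sub, map_sub] at a1 b1
  have t1 := congrArg (fT p x1) (th_GF (A := A) K)
  have t2 := congrArg (fT p x1) (th_GC hh hs K)
  have hT : fT p x1 (X : A⟦X⟧) = C x1 * X ^ p := fT_X x1
  rw [map_mul (fT p x1), map_mul (fT p x1), map_sub (fT p x1), map_sub (fT p x1), map_mul (fT p x1), map_mul (fT p x1), hT, map_one,
    map_ofNat, map_ofNat] at t1
  simp only [map_mul (fT p x1), map_sub (fT p x1), map_add (fT p x1), map_pow (fT p x1), hT, map_one, map_ofNat] at t2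
  have hτc : constantCoeff (C x1 * X ^ p : A⟦X⟧) = 0 := by
    rw [map_mul, map_pow, constantCoeff_X, zero_pow hp.out.ne_zero, mul_zero]
  unfold R0 R1
  set x : A⟦X⟧ := C x0 * X with hxd
  set τ : A⟦X⟧ := C x1 * X ^ p with hτd
  set Z := fZ x0 (phi A ^ 2)
  set Φ := fT p x1 (phi A ^ 2)
  set Θ := fT p x1 (th (phi A ^ 2))
  set f0 := fT p x1 (GF A 0 K)
  set f1 := fT p x1 (GF A 1 K)
  set g0 := fT p x1 (GC σ 0 K)
  set g1 := fT p x1 (GC σ 1 K)
  set tf := fT p x1 (th (GF A 0 K))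
  set tg := fT p x1 (th (GC σ 0 K))
  set FZ := Fz p x (fun j => C (α j))
  set FB := Fb p x τ (C e) (fun j => C (α j)) (fun j => C (δ j))
  set CA := Ca p n x τ (C h) (fun j => C (γ j))
  set CB := Cb p n x τ (C e) (fun j => C (γ j)) (fun j => C (ζ j))
  set lp := (1 + 216 * x) ^ (3 * (p - 1))
  have hu : IsUnit ((1 - 27 * τ) * (1 + 216 * τ)) := by
    rw [PowerSeries.isUnit_iff_constantCoeff]
    simp only [map_sub, map_add, map_mul, map_one, map_ofNat, hτc]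
    simp
  obtain ⟨u, hu'⟩ := hu
  have hdu : X ^ (p * K) ∣ ((1 - 27 * τ) * (1 + 216 * τ)) * (
      ((1 - 54 * τ) * (1 + 216 * τ) * CB - (1 - 540 * τ - 5832 * τ ^ 2) * (1 + 216 * τ) * lp * FB) * Θ +
      ((1 - 54 * τ) * ((1 - 540 * τ - 5832 * τ ^ 2) * CA + 108 * τ * CB) -
        (1 - 54 * τ) * (1 - 540 * τ - 5832 * τ ^ 2) * (1 + 216 * τ) * lp * FZ) * Φ) := by
    obtain ⟨q1, hq1⟩ := s1
    obtain ⟨q2, hq2⟩ := s2
    obtain ⟨q3, hq3⟩ := a0
    obtain ⟨q4, hq4⟩ := a1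
    obtain ⟨q5, hq5⟩ := b0
    obtain ⟨q6, hq6⟩ := b1
    clear_value x τ Z Φ Θ f0 f1 g0 g1 tf tg FZ FB CA CB lp
    generalize hM : 1 - 27 * τ = M at *
    generalize hL : 1 + 216 * τ = L at *
    generalize hQ : 1 - 54 * τ = Q at *
    generalize hE : 1 - 540 * τ - 5832 * τ ^ 2 = E at *
    refine ⟨Q * E * L ^ 2 * lp * q1 - Q * E * q2 + Q * L ^ 2 * M * CB * q6 + (108 * τ * M * L * Q * CB + M * L * Q * E * CA) * q5 -
      E * L ^ 2 * lp * FB * M * q4 - M * L ^ 2 * Q * E * lp * FZ * q3, ?_⟩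
    linear_combination (Q * E * L ^ 2 * lp) * hq1 - (Q * E) * hq2 + (Q * L ^ 2 * M * CB) * hq6 + (Q * L * CB) * t2 +
      (108 * τ * M * L * Q * CB + M * L * Q * E * CA) * hq5 - (E * L ^ 2 * lp * FB * M) * hq4 - (E * L ^ 2 * lp * FB) * t1 -
      (M * L ^ 2 * Q * E * lp * FZ) * hq3
  rw [← hu'] at hdu
  exact (Units.dvd_mul_left (u := u)).mp hdu

section deg

open Polynomial

variable {x τ e h : A[X]} {α δ γ ζ : ℕ → A}

/-- constants -/
def K0 (c : A[X]) : Prop := c.natDegree ≤ 0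

theorem nd_one (n : ℕ) : (1 : A[X]).natDegree ≤ n := by rw [natDegree_one]; exact Nat.zero_le _
theorem nd_ofNat (m : ℕ) [m.AtLeastTwo] (n : ℕ) : (OfNat.ofNat m : A[X]).natDegree ≤ n := by
  have : (OfNat.ofNat m : A[X]) = Polynomial.C (OfNat.ofNat m : A) := by rw [map_ofNat]
  rw [this]; exact nd_C _ _

theorem nd_aff (hx : x.natDegree ≤ 1) : (1 - 27 * x : A[X]).natDegree ≤ 1 :=
  nd_sub (nd_one _) ((nd_mul (nd_ofNat 27 0) hx).trans (by omega))
theorem nd_aff' (hx : x.natDegree ≤ 1) : (1 + 216 * x : A[X]).natDegree ≤ 1 :=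
  nd_add (nd_one _) ((nd_mul (nd_ofNat 216 0) hx).trans (by omega))
theorem nd_M (hτ : τ.natDegree ≤ p) : (1 - 27 * τ : A[X]).natDegree ≤ p :=
  nd_sub (nd_one _) ((nd_mul (nd_ofNat 27 0) hτ).trans (by omega))
theorem nd_L (hτ : τ.natDegree ≤ p) : (1 + 216 * τ : A[X]).natDegree ≤ p :=
  nd_add (nd_one _) ((nd_mul (nd_ofNat 216 0) hτ).trans (by omega))
theorem nd_Q (hτ : τ.natDegree ≤ p) : (1 - 54 * τ : A[X]).natDegree ≤ p :=
  nd_sub (nd_one _) ((nd_mul (nd_ofNat 54 0) hτ).trans (by omega))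
theorem nd_E (hτ : τ.natDegree ≤ p) : (1 - 540 * τ - 5832 * τ ^ 2 : A[X]).natDegree ≤ 2 * p :=
  nd_sub (nd_sub (nd_one _) ((nd_mul (nd_ofNat 540 0) hτ).trans (by omega))) ((nd_mul (nd_ofNat 5832 0) (nd_pow hτ 2)).trans (by omega))

theorem nd_Fz (hx : x.natDegree ≤ 1) : (Fz p x (fun j => C (α j))).natDegree ≤ 2 * (p - 1) := by
  unfold Fz
  refine natDegree_sum_le_of_forall_le _ _ fun j hj => ?_
  rw [mem_range] at hj
  exact (nd_mul (nd_C _ 0) (nd_pow (nd_mul hx (nd_aff hx)) j)).trans (by omega)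

theorem nd_Cz (hx : x.natDegree ≤ 1) : (Cz p x (fun j => C (γ j))).natDegree ≤ 4 * (p - 1) := by
  unfold Cz
  refine natDegree_sum_le_of_forall_le _ _ fun j hj => ?_
  rw [mem_range] at hj
  exact (nd_mul (nd_C _ 0) (nd_mul (nd_pow (nd_mul hx (nd_pow (nd_aff hx) 3)) j) (nd_pow (nd_aff' hx) (3 * (p - 1 - j))))).trans (by omega)

theorem nd_DM (hx : x.natDegree ≤ 1) (hτ : τ.natDegree ≤ p) : (DM p x τ).natDegree ≤ p := by
  unfold DM
  exact nd_sub ((nd_pow (nd_aff hx) p).trans (by omega)) (nd_M hτ)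
theorem nd_DL (hx : x.natDegree ≤ 1) (hτ : τ.natDegree ≤ p) : (DL p x τ).natDegree ≤ p := by
  unfold DL
  exact nd_sub ((nd_pow (nd_aff' hx) p).trans (by omega)) (nd_L hτ)

theorem nd_Dt (hx : x.natDegree ≤ 1) (hτ : τ.natDegree ≤ p) (he : e.natDegree ≤ 0) : (Dt p x τ e).natDegree ≤ 2 * p := by
  unfold Dt
  refine nd_sub (nd_add ?_ ?_) ?_
  · exact (nd_mul (nd_sub he (nd_one 0)) (nd_mul (nd_M hτ) (nd_L hτ))).trans (by omega)
  · exact (nd_mul (nd_mul (nd_ofNat 3 0) (nd_DM hx hτ)) (nd_L hτ)).trans (by omega)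
  · exact (nd_mul (nd_mul (nd_ofNat 3 0) (nd_DL hx hτ)) (nd_M hτ)).trans (by omega)

theorem nd_Ca (hx : x.natDegree ≤ 1) (hτ : τ.natDegree ≤ p) (hh : h.natDegree ≤ 0) :
    (Ca p n x τ h (fun j => C (γ j))).natDegree ≤ n + p + 4 * (p - 1) := by
  unfold Ca
  refine (nd_mul (nd_mul (nd_pow (nd_aff' hx) n) (nd_sub (nd_L hτ) ?_)) (nd_Cz hx)).trans (by omega)
  exact (nd_mul hh (nd_DL hx hτ)).trans (by omega)

theorem nd_Cb (hx : x.natDegree ≤ 1) (hτ : τ.natDegree ≤ p) (he : e.natDegree ≤ 0) :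
    (Cb p n x τ e (fun j => C (γ j)) (fun j => C (ζ j))).natDegree ≤ n + (2 * p + 4 * (p - 1)) := by
  unfold Cb
  refine (nd_mul (nd_pow (nd_aff' hx) n) (nd_add (a := 2 * p + 4 * (p - 1)) ?_ ?_)).trans (by omega)
  · exact nd_mul (nd_Dt hx hτ he) (nd_Cz hx)
  · exact (nd_mul (nd_mul (nd_M hτ) (nd_L hτ)) (nd_Cz hx)).trans (by omega)

theorem nd_Fb (hx : x.natDegree ≤ 1) (hτ : τ.natDegree ≤ p) (he : e.natDegree ≤ 0) :
    (Fb p x τ e (fun j => C (α j)) (fun j => C (δ j))).natDegree ≤ p + 2 * (p - 1) := by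
  unfold Fb
  refine nd_add ?_ ?_
  · exact nd_mul (nd_M hτ) (nd_Fz hx)
  · refine nd_mul (nd_add ?_ (nd_DM hx hτ)) (nd_Fz hx)
    exact (nd_mul (nd_sub he (nd_one 0)) (nd_M hτ)).trans (by omega)

theorem nd_R0 (hp3 : 1 < p) (hn : p = 2 * n + 1) (hx : x.natDegree ≤ 1) (hτ : τ.natDegree ≤ p) (he : e.natDegree ≤ 0) (hh : h.natDegree ≤ 0) :
    (R0 p n x τ e h (fun j => C (α j)) (fun j => C (γ j)) (fun j => C (ζ j))).natDegree < 9 * p := by
  have : (R0 p n x τ e h (fun j => C (α j)) (fun j => C (γ j)) (fun j => C (ζ j))).natDegree ≤ 9 * p - 4 := by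
    unfold R0
    refine nd_sub ?_ ?_
    · refine (nd_mul (nd_Q hτ) (nd_add (a := 7 * p + n - 4) ?_ ?_)).trans (by omega)
      · exact (nd_mul (nd_E hτ) (nd_Ca hx hτ hh)).trans (by omega)
      · exact (nd_mul (nd_mul (nd_ofNat 108 0) hτ) (nd_Cb hx hτ he)).trans (by omega)
    · exact (nd_mul (nd_mul (nd_mul (nd_mul (nd_Q hτ) (nd_E hτ)) (nd_L hτ)) (nd_pow (nd_aff' hx) (3 * (p - 1)))) (nd_Fz hx)).trans (by omega)
  omega

theorem nd_R1 (hp3 : 1 < p) (hn : p = 2 * n + 1) (hx : x.natDegree ≤ 1) (hτ : τ.natDegree ≤ p) (he : e.natDegree ≤ 0) :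
    (R1 p n x τ e (fun j => C (α j)) (fun j => C (δ j)) (fun j => C (γ j)) (fun j => C (ζ j))).natDegree < 9 * p := by
  have : (R1 p n x τ e (fun j => C (α j)) (fun j => C (δ j)) (fun j => C (γ j)) (fun j => C (ζ j))).natDegree ≤ 9 * p - 4 := by
    unfold R1
    refine nd_sub ?_ ?_
    · exact (nd_mul (nd_mul (nd_Q hτ) (nd_L hτ)) (nd_Cb hx hτ he)).trans (by omega)
    · exact (nd_mul (nd_mul (nd_mul (nd_E hτ) (nd_L hτ)) (nd_pow (nd_aff' hx) (3 * (p - 1)))) (nd_Fb hx hτ he)).trans (by omega)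
  omega

end deg

section final

theorem two_unit_half {a : A} (h : IsUnit a) : ∃ b, a * b = 1 := by
  obtain ⟨u, rfl⟩ := h
  exact ⟨(u⁻¹ : Aˣ), by simp⟩

/-- the two relations after evaluation -/
theorem rels {σ : A⟦X⟧} {x0 x1 e ν h : A} {α δ γ ζ : ℕ → A} (hU : S_U) (h53 : 53 ≤ p) (hun : ∀ k : ℕ, 0 < k → k < p → IsUnit (k : A))
    (hx1 : IsUnit x1) (hP : (p : A) ^ 2 = 0) (hn : p = 2 * n + 1) (hh : 2 * h = 1)
    (hz : x0 ^ p = x1 * e) (he : e = 1 + p * ν)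
    (hs : σ ^ 2 * (1 + 216 * X) = 1) (hsc : constantCoeff σ = 1)
    (hv3 : ∀ κ j : ℕ, j < p → (v3 (p * κ + j) : A) = v3 κ * (α j + κ * δ j)) (hδ : ∀ j < p, ∃ b, δ j = p * b)
    (hv : ∀ κ j : ℕ, j < p → (v1 (p * κ + j) : A) = v1 κ * (γ j + κ * ζ j)) (hζ : ∀ j < p, ∃ b, ζ j = p * b)
    (hbf : ∀ K, X ^ K ∣ phi A ^ 2 - GF A 0 K)
    (hbc : ∀ K, X ^ K ∣ phi A ^ 2 - GC σ 0 K) :
    R0 p n x0 x1 e h α γ ζ = 0 ∧ R1 p n x0 x1 e α δ γ ζ = 0 := by
  have hc := comb hP hn hh hz he hs hsc hv3 hδ hv hζ hbf hbc 18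
  set Y0 : Polynomial A := Polynomial.C x0 * Polynomial.X with hY0
  set Y1 : Polynomial A := Polynomial.C x1 * Polynomial.X ^ p with hY1
  set P0 : Polynomial A := R0 p n Y0 Y1 (Polynomial.C e) (Polynomial.C h) (fun j => Polynomial.C (α j)) (fun j => Polynomial.C (γ j))
    (fun j => Polynomial.C (ζ j)) with hP0
  set P1 : Polynomial A := R1 p n Y0 Y1 (Polynomial.C e) (fun j => Polynomial.C (α j)) (fun j => Polynomial.C (δ j)) (fun j => Polynomial.C (γ j))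
    (fun j => Polynomial.C (ζ j)) with hP1
  have d0 : Y0.natDegree ≤ 1 := by
    have := nd_mul (nd_C x0 0) (Polynomial.natDegree_X_le (R := A))
    simpa using this
  have d1 : Y1.natDegree ≤ p := by
    have := nd_mul (nd_C x1 0) (nd_X (A := A) p)
    simpa using this
  have c0 : (P0 : A⟦X⟧) = R0 p n (C x0 * X) (C x1 * X ^ p) (C e) (C h) (fun j => C (α j)) (fun j => C (γ j)) (fun j => C (ζ j)) := by
    have := map_R0 (Polynomial.coeToPowerSeries.ringHom (R := A)) p n Y0 Y1 (Polynomial.C e) (Polynomial.C h) (fun j => Polynomial.C (α j))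
      (fun j => Polynomial.C (γ j)) (fun j => Polynomial.C (ζ j))
    rw [← hP0] at this
    simp only [Polynomial.coeToPowerSeries.ringHom_apply, hY0, hY1, Polynomial.coe_mul, Polynomial.coe_C, Polynomial.coe_X, Polynomial.coe_pow] at this
    exact this
  have c1 : (P1 : A⟦X⟧) = R1 p n (C x0 * X) (C x1 * X ^ p) (C e) (fun j => C (α j)) (fun j => C (δ j)) (fun j => C (γ j)) (fun j => C (ζ j)) := by
    have := map_R1 (Polynomial.coeToPowerSeries.ringHom (R := A)) p n Y0 Y1 (Polynomial.C e) (fun j => Polynomial.C (α j)) (fun j => Polynomial.C (δ j))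
      (fun j => Polynomial.C (γ j)) (fun j => Polynomial.C (ζ j))
    rw [← hP1] at this
    simp only [Polynomial.coeToPowerSeries.ringHom_apply, hY0, hY1, Polynomial.coe_mul, Polynomial.coe_C, Polynomial.coe_X, Polynomial.coe_pow] at this
    exact this
  rw [← c0, ← c1] at hc
  obtain ⟨z0, z1⟩ := hU A p h53 hun x1 hx1 P0 P1
    (nd_R0 (by omega) hn d0 d1 (nd_C e 0) (nd_C h 0)) (nd_R1 (by omega) hn d0 d1 (nd_C e 0)) hc
  have e0 := map_R0 (Polynomial.evalRingHom (1 : A)) p n Y0 Y1 (Polynomial.C e) (Polynomial.C h) (fun j => Polynomial.C (α j))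
      (fun j => Polynomial.C (γ j)) (fun j => Polynomial.C (ζ j))
  have e1 := map_R1 (Polynomial.evalRingHom (1 : A)) p n Y0 Y1 (Polynomial.C e) (fun j => Polynomial.C (α j)) (fun j => Polynomial.C (δ j))
      (fun j => Polynomial.C (γ j)) (fun j => Polynomial.C (ζ j))
  rw [← hP0, z0, map_zero] at e0
  rw [← hP1, z1, map_zero] at e1
  simp only [Polynomial.coe_evalRingHom, hY0, hY1, Polynomial.eval_mul, Polynomial.eval_C, Polynomial.eval_X, Polynomial.eval_pow, one_pow, mul_one] at e0 e1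
  exact ⟨e0.symm, e1.symm⟩

end final

section last

theorem QP_lin {f : ℕ → A} (hP : (p : A) ^ 2 = 0) (hf : QP (p : A) f) : (∀ κ : ℕ, f κ = f 0 + κ * (f 1 - f 0)) ∧ ∃ b, f 1 - f 0 = p * b := by
  obtain ⟨a, b, c, h⟩ := hf
  refine ⟨fun κ => ?_, b, ?_⟩
  · rw [h κ, h 0, h 1, hP]; push_cast; ring
  · rw [h 0, h 1, hP]; push_cast; ring

theorem R (hBf : S_Bf) (hBc : S_Bc) (hU : S_U) (hFc : S_Fc) : S_R := by
  intro A _ p n hp φ x0 x1 e ν li mi h53 hn hP hz he hx1 hli hmi hq hE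
  obtain ⟨σ, hs, hsc, hbc⟩ := hBc A
  obtain ⟨hFQ, hFS⟩ := hFc p (by omega)
  obtain ⟨h, hh'⟩ := two_unit_half (A_unit φ 2 (by norm_num) (by omega))
  have hh : 2 * h = 1 := by exact_mod_cast hh'
  have hodd : Odd p := ⟨n, hn⟩
  have qf : ∀ j < p, QP (p : A) (fun κ => φ (Fc p j κ)) := fun j hj => by
    have := (hFQ j hj).map φ
    rwa [map_natCast] at this
  have qc : ∀ j < p, QP (p : A) (fun κ => φ (H1 p j κ)) := fun j hj => by
    have := (H1_QP j hj).map φ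
    rwa [map_natCast] at this
  set α : ℕ → A := fun j => φ (Fc p j 0) with hα
  set δ : ℕ → A := fun j => φ (Fc p j 1) - φ (Fc p j 0) with hδ
  set γ : ℕ → A := fun j => φ (H1 p j 0) with hγ
  set ζ : ℕ → A := fun j => φ (H1 p j 1) - φ (H1 p j 0) with hζ
  have hδp : ∀ j < p, ∃ b, δ j = p * b := fun j hj => (QP_lin hP (qf j hj)).2
  obtain ⟨r0, r1⟩ := rels (α := α) (δ := δ) (γ := γ) (ζ := ζ) hU h53 (A_unit φ) hx1 hP hn hh hz he hs hsc
    (fun κ j hj => by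
      have h1 := (QP_lin hP (qf j hj)).1 κ
      rw [phi_cast φ, hFS κ j hj, map_mul, ← phi_cast φ, h1])
    hδp
    (fun κ j hj => by
      have h1 := (QP_lin hP (qc j hj)).1 κ
      rw [phi_cast φ, H1_spec (by omega) κ j hj, map_mul, ← phi_cast φ, h1])
    (fun j hj => (QP_lin hP (qc j hj)).2)
    (fun K => by
      have := hBf A K
      unfold GF
      simpa only [pow_zero, one_mul] using this)
    (fun K => by
      have := hbc K
      unfold GC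
      simpa only [pow_zero, one_mul] using this)
  have hx : x0 ^ p = x1 * (1 + p * ν) := by rw [hz, he]
  obtain ⟨N, hN⟩ := DM_ex hodd hx
  obtain ⟨N', hN'⟩ := DL_ex hx
  have hl0 : IsUnit (1 + 216 * x0) := IsUnit.of_mul_eq_one li hli
  have hL : (1 + 216 * x0) ^ p = (1 + 216 * x1) + DL p x0 x1 := by unfold DL; ring
  have hM : (1 - 27 * x0) ^ p = (1 - 27 * x1) + DM p x0 x1 := by unfold DM; ring
  have hEE : DL p x0 x1 ^ 2 = 0 := by rw [hN', mul_pow, hP, zero_mul]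
  have hl1 : IsUnit (1 + 216 * x1) := by
    have : IsUnit ((1 + 216 * x1) * ((1 + 216 * x0) ^ p + DL p x0 x1)) := by
      have e1 : (1 + 216 * x1) * ((1 + 216 * x0) ^ p + DL p x0 x1) = ((1 + 216 * x0) ^ p) ^ 2 := by
        linear_combination -((1 + 216 * x0) ^ p + DL p x0 x1) * hL - hEE
      rw [e1]
      exact (hl0.pow p).pow 2
    exact isUnit_of_mul_isUnit_left this
  obtain ⟨ki, hki⟩ := two_unit_half hl1
  have hlp : IsUnit ((1 + 216 * x0) ^ (3 * (p - 1))) := hl0.pow _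
  -- the first relation
  have hC : Cz p x0 γ = (1 + 216 * x0) ^ (3 * (p - 1)) * ∑ j ∈ range p, φ (v1 j) * (x0 * (1 - 27 * x0) ^ 3 * li ^ 3) ^ j := by
    unfold Cz
    rw [mul_sum]
    refine sum_congr rfl fun j hj => ?_
    rw [mem_range] at hj
    have e1 : (1 + 216 * x0) ^ (3 * (p - 1)) = (1 + 216 * x0) ^ (3 * (p - 1 - j)) * (1 + 216 * x0) ^ (3 * j) := by
      rw [← pow_add]; congr 1; omega
    have e2 : (1 + 216 * x0) ^ (3 * j) * (li ^ 3) ^ j = 1 := by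
      rw [← pow_mul, ← mul_pow, hli, one_pow]
    show φ (H1 p j 0) * _ = _
    rw [H1_zero (by omega) j hj, e1, mul_pow (x0 * (1 - 27 * x0) ^ 3)]
    linear_combination (-(φ (v1 j) * (x0 * (1 - 27 * x0) ^ 3) ^ j * (1 + 216 * x0) ^ (3 * (p - 1 - j)))) * e2
  set T := ∑ j ∈ range p, φ (v1 j) * (x0 * (1 - 27 * x0) ^ 3 * li ^ 3) ^ j with hT
  unfold R1 at r1
  have r1' : (1 - 54 * x1) * Cb p n x0 x1 e γ ζ = (1 - 540 * x1 - 5832 * x1 ^ 2) * (1 + 216 * x0) ^ (3 * (p - 1)) * Fb p x0 x1 e α δ := by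
    apply hl1.mul_left_cancel
    linear_combination r1
  unfold R0 at r0
  have r0' : (1 - 54 * x1) * Ca p n x0 x1 h γ + 108 * x1 * (1 + 216 * x0) ^ (3 * (p - 1)) * Fb p x0 x1 e α δ =
      (1 - 54 * x1) * (1 + 216 * x1) * (1 + 216 * x0) ^ (3 * (p - 1)) * Fz p x0 α := by
    apply hE.mul_left_cancel
    linear_combination r0 - 108 * x1 * r1'
  unfold Ca at r0'
  rw [hC] at r0'
  have r2 : (1 - 54 * x1) * ((1 + 216 * x0) ^ n * ((1 + 216 * x1) - h * DL p x0 x1) * T) + 108 * x1 * Fb p x0 x1 e α δ =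
      (1 - 54 * x1) * (1 + 216 * x1) * Fz p x0 α := by
    apply hlp.mul_left_cancel
    linear_combination r0'
  refine ⟨(1 + 216 * x0) ^ n * (1 - h * DL p x0 x1 * ki), ?_, ⟨-(h * N' * ki), ?_⟩, ?_⟩
  · have e1 : ((1 + 216 * x0) ^ n) ^ 2 * (1 + 216 * x0) = (1 + 216 * x1) + DL p x0 x1 := by
      rw [← hL, ← pow_mul, ← pow_succ]; congr 1; omega
    set D := DL p x0 x1
    linear_combination (1 - h * D * ki) ^ 2 * e1 + (-(2 * h) * D) * hki - D * hh + (h ^ 2 * ki ^ 2 * (1 + 216 * x1) - 2 * h * ki + h ^ 2 * ki ^ 2 * D) * hEE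
  · rw [hN']; ring
  · have hf0 : fam p (fun j κ => φ (Fc p j κ)) (e * (1 - 27 * x0) ^ p * mi) (x0 * (1 - 27 * x0)) 0 = Fz p x0 α := by
      unfold fam Fz
      rw [pow_zero, one_mul]
    have hf1 : fam p (fun j κ => φ (Fc p j κ)) (e * (1 - 27 * x0) ^ p * mi) (x0 * (1 - 27 * x0)) 1 =
        (e * (1 - 27 * x0) ^ p * mi) * (Fz p x0 α + Fz p x0 δ) := by
      unfold fam Fz
      rw [pow_one, ← sum_add_distrib]
      congr 1
      refine sum_congr rfl fun j _ => ?_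
      rw [← add_mul]
      congr 1
      show φ (Fc p j 1) = φ (Fc p j 0) + (φ (Fc p j 1) - φ (Fc p j 0))
      ring
    have hz2 : ∀ y : A, (p : A) * y * Fz p x0 δ = 0 := by
      intro y
      unfold Fz
      rw [mul_sum]
      refine sum_eq_zero fun j hj => ?_
      rw [mem_range] at hj
      obtain ⟨b, hb⟩ := hδp j hj
      rw [hb]
      linear_combination (y * b * (x0 * (1 - 27 * x0)) ^ j) * hP
    have hz3 := hz2 (ν * (1 - 27 * x1) + N)
    have hfb : Fb p x0 x1 e α δ = (1 - 27 * x1) * ((e * (1 - 27 * x0) ^ p * mi) * (Fz p x0 α + Fz p x0 δ) - Fz p x0 α) := by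
      unfold Fb
      rw [hM, hN, he]
      linear_combination (-(1 + p * ν) * (1 - 27 * x1 + p * N) * (Fz p x0 α + Fz p x0 δ)) * hmi - (ν * N * (Fz p x0 α + Fz p x0 δ)) * hP - hz3
    rw [hf0, hf1]
    linear_combination r2 + 108 * x1 * (-1) * hfb + ((1 - 54 * x1) * (1 + 216 * x0) ^ n * (-h * DL p x0 x1 * T)) * hki

end last

end Pool.Agent.H547.C9.Rel
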