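import Pool.Agent.H547.C9.Stm3

set_option autoImplicit false
set_option linter.unusedSectionVars false

/-!
# Uniqueness for the relation (degree two version of `P3.uniq`, `P3.R_zero`)
-/

namespace Pool.Agent.H547.C9.Un

open Finset Polynomial Pool.Agent.H547.P3 Pool.Agent.H547.C9

variable {A : Type} [CommRing A]

noncomputable def tt (a b : ℕ → A) (i : ℕ) : A[X] := C (a i) + C (b i) * (X - C (i : A))

noncomputable def ee (l : ℕ) : A[X] := C 3 * ((C 3 * X - C (3 * (l : A) + 2)) * (C 3 * X - C (3 * (l : A) + 1)))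

noncomputable def Qf (a b : ℕ → A) : ℕ → ℕ → A[X]
  | 0, i0 => tt a b i0
  | r + 1, i0 => tt a b i0 * ∏ l ∈ range (r + 1), ee (i0 + l) + (X - C (i0 : A)) ^ 2 * Qf a b r (i0 + 1)

theorem tt_deg (a b : ℕ → A) (i : ℕ) : (tt a b i).natDegree ≤ 1 := by
  unfold tt
  have h1 : (X - C (i : A)).natDegree ≤ 1 := natDegree_X_sub_C_le _
  refine natDegree_add_le_of_degree_le ?_ ?_
  · simp
  · exact (natDegree_C_mul_le _ _).trans (by omega)

theorem ee_deg (l : ℕ) : (ee l : A[X]).natDegree ≤ 2 := by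
  unfold ee
  have h : ∀ c : A, (C 3 * X - C c : A[X]).natDegree ≤ 1 := fun c => by
    refine (natDegree_sub_le _ _).trans (max_le ((natDegree_C_mul_le _ _).trans natDegree_X_le) ?_)
    rw [natDegree_C]; omega
  refine (natDegree_C_mul_le _ _).trans (natDegree_mul_le.trans ?_)
  have h1 := h (3 * (l : A) + 2)
  have h2 := h (3 * (l : A) + 1)
  omega

theorem prod_deg (r i0 : ℕ) : (∏ l ∈ range r, ee (i0 + l) : A[X]).natDegree ≤ 2 * r := by
  induction r with
  | zero => simp
  | succ r ih =>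
    rw [prod_range_succ]
    refine natDegree_mul_le.trans ?_
    have := ee_deg (A := A) (i0 + r)
    omega

theorem Qf_deg (a b : ℕ → A) (r : ℕ) : ∀ i0, (Qf a b r i0).natDegree ≤ 2 * r + 1 := by
  induction r with
  | zero => intro i0; simpa [Qf] using tt_deg a b i0
  | succ r ih =>
    intro i0
    rw [Qf]
    refine natDegree_add_le_of_degree_le ?_ ?_
    · refine natDegree_mul_le.trans ?_
      have h1 := tt_deg a b i0
      have h2 := prod_deg (A := A) (r + 1) i0
      omega
    · refine natDegree_mul_le.trans ?_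
      have h1 : ((X - C (i0 : A)) ^ 2).natDegree ≤ 2 := by
        refine natDegree_pow_le.trans ?_
        have : (X - C (i0 : A)).natDegree ≤ 1 := natDegree_X_sub_C_le _
        omega
      have h2 := ih (i0 + 1)
      omega

theorem h3_fac (k : ℕ) : h3 k * (k.factorial ^ 2 * k.factorial) = (3 * k).factorial := by
  unfold h3
  have h1 : (2 * k).choose k * k.factorial * k.factorial = (2 * k).factorial := by
    have := Nat.choose_mul_factorial_mul_factorial (show k ≤ 2 * k by omega)
    rwa [show 2 * k - k = k by omega] at this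
  have h2 : (3 * k).choose k * k.factorial * (2 * k).factorial = (3 * k).factorial := by
    have := Nat.choose_mul_factorial_mul_factorial (show k ≤ 3 * k by omega)
    rwa [show 3 * k - k = 2 * k by omega] at this
  rw [← h2, ← h1, Nat.centralBinom]
  ring

theorem h3_nat (k : ℕ) : h3 (k + 1) * (k + 1) ^ 2 = 3 * ((3 * k + 1) * (3 * k + 2)) * h3 k := by
  have h1 := h3_fac (k + 1)
  have h2 := h3_fac k
  rw [show 3 * (k + 1) = 3 * k + 2 + 1 by ring, Nat.factorial_succ (3 * k + 2), Nat.factorial_succ (3 * k + 1), Nat.factorial_succ (3 * k),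
    Nat.factorial_succ k, ← h2] at h1
  have hk : 0 < k.factorial ^ 3 * (k + 1) := by positivity
  apply Nat.eq_of_mul_eq_mul_right hk
  linear_combination h1

theorem h3_succ (k : ℕ) : (h3 (k + 1) : A) * ((k : A) + 1) ^ 2 = 3 * ((3 * (k : A) + 1) * (3 * (k : A) + 2)) * (h3 k : A) := by
  have h := congrArg (Nat.cast : ℕ → A) (h3_nat k)
  push_cast at h
  exact h

/-- the sum -/
noncomputable def Ss (a b : ℕ → A) (r i0 N : ℕ) : A :=
  ∑ i ∈ range (r + 1), if i0 + i ≤ N then (h3 (N - (i0 + i)) : A) * (tt a b (i0 + i)).eval (N : A) else 0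

theorem Qf_eval (a b : ℕ → A) (r : ℕ) : ∀ i0 N, i0 ≤ N →
    (h3 (N - i0) : A) * (Qf a b r i0).eval (N : A) =
      (∏ l ∈ range r, (ee (i0 + l) : A[X]).eval (N : A)) * Ss a b r i0 N := by
  induction r with
  | zero =>
    intro i0 N h
    simp [Qf, Ss, h]
  | succ r ih =>
    intro i0 N h
    rw [Qf, eval_add, eval_mul, eval_mul, eval_prod, mul_add]
    have hS : Ss a b (r + 1) i0 N = (h3 (N - i0) : A) * (tt a b i0).eval (N : A) + Ss a b r (i0 + 1) N := by
      unfold Ss
      rw [sum_range_succ']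
      simp only [add_zero]
      rw [if_pos h, add_comm]
      congr 1
      refine sum_congr rfl fun i _ => ?_
      rw [show i0 + (i + 1) = i0 + 1 + i by omega]
    rw [hS]
    have hP : (∏ l ∈ range (r + 1), (ee (i0 + l) : A[X]).eval (N : A)) =
        (ee i0 : A[X]).eval (N : A) * ∏ l ∈ range r, (ee (i0 + 1 + l) : A[X]).eval (N : A) := by
      rw [prod_range_succ', add_zero, mul_comm]
      refine congrArg (fun x => (ee i0 : A[X]).eval (N : A) * x) (prod_congr rfl fun l _ => ?_)
      rw [show i0 + (l + 1) = i0 + 1 + l by omega]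
    have key : (h3 (N - i0) : A) * (((X - C (i0 : A)) ^ 2).eval (N : A) * (Qf a b r (i0 + 1)).eval (N : A)) =
        (∏ l ∈ range (r + 1), (ee (i0 + l) : A[X]).eval (N : A)) * Ss a b r (i0 + 1) N := by
      rcases Nat.eq_or_lt_of_le h with h' | h'
      · subst h'
        have : Ss a b r (i0 + 1) i0 = 0 := by
          unfold Ss
          refine sum_eq_zero fun i _ => ?_
          rw [if_neg (by omega)]
        rw [this, mul_zero]
        have : ((X - C (i0 : A)) ^ 2).eval (i0 : A) = 0 := by simp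
        rw [this, zero_mul, mul_zero]
      · have h1 := ih (i0 + 1) N h'
        have h2 := h3_succ (A := A) (N - (i0 + 1))
        rw [show N - (i0 + 1) + 1 = N - i0 by omega] at h2
        have h3' : ((N - (i0 + 1) : ℕ) : A) + 1 = (N : A) - i0 := by
          rw [Nat.cast_sub h']; push_cast; ring
        have h4 : 3 * ((N - (i0 + 1) : ℕ) : A) + 1 = 3 * (N : A) - (3 * i0 + 2) := by
          rw [Nat.cast_sub h']; push_cast; ring
        have h4' : 3 * ((N - (i0 + 1) : ℕ) : A) + 2 = 3 * (N : A) - (3 * i0 + 1) := by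
          rw [Nat.cast_sub h']; push_cast; ring
        rw [h3', h4, h4'] at h2
        rw [hP, mul_assoc, ← h1]
        have h5 : (ee i0 : A[X]).eval (N : A) = 3 * ((3 * (N : A) - (3 * i0 + 2)) * (3 * (N : A) - (3 * i0 + 1))) := by
          simp [ee]
        have h6 : ((X - C (i0 : A)) ^ 2).eval (N : A) = ((N : A) - i0) ^ 2 := by simp
        rw [h5, h6]
        generalize eval (N : A) (Qf a b r (i0 + 1)) = Q0 at *
        generalize (h3 (N - i0) : A) = U0 at *
        generalize (h3 (N - (i0 + 1)) : A) = U1 at *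
        linear_combination Q0 * h2
    rw [key]
    generalize (∏ l ∈ range (r + 1), (ee (i0 + l) : A[X]).eval (N : A)) = P0
    ring

theorem t_zero (a b : ℕ → A) (i0 : ℕ) (E Q : A[X]) (hE : IsUnit (E.eval (i0 : A)))
    (h : tt a b i0 * E + (X - C (i0 : A)) ^ 2 * Q = 0) : a i0 = 0 ∧ b i0 = 0 := by
  have h1 := congrArg (fun f => f.comp (X + C (i0 : A))) h
  simp only [add_comp, mul_comp, pow_comp, sub_comp, X_comp, C_comp, zero_comp, tt, add_sub_cancel_right] at h1
  set E' := E.comp (X + C (i0 : A))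
  set Q' := Q.comp (X + C (i0 : A))
  have hE' : IsUnit (E'.coeff 0) := by
    rw [coeff_zero_eq_eval_zero, eval_comp]
    simpa using hE
  have c0 := congrArg (fun f => f.coeff 0) h1
  have c1 := congrArg (fun f => f.coeff 1) h1
  have e : (C (a i0) + C (b i0) * X) * E' + X ^ 2 * Q' =
      C (a i0) * E' + C (b i0) * (X * E') + X ^ 2 * Q' := by ring
  simp only [e] at c0 c1
  have x10 : (X * E').coeff 0 = 0 := by simp
  have x11 : (X * E').coeff 1 = E'.coeff 0 := coeff_X_mul _ _
  have x20 : (X ^ 2 * Q').coeff 0 = 0 := by rw [coeff_X_pow_mul']; simp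
  have x21 : (X ^ 2 * Q').coeff 1 = 0 := by rw [coeff_X_pow_mul']; simp
  simp only [coeff_add, coeff_C_mul, coeff_zero, x10, x11, x20, x21, mul_zero, add_zero] at c0 c1
  have ha : a i0 = 0 := hE'.mul_left_eq_zero.mp c0
  rw [ha, zero_mul, zero_add] at c1
  exact ⟨ha, hE'.mul_left_eq_zero.mp c1⟩

theorem Qf_zero {p : ℕ} (hu : ∀ k : ℕ, 0 < k → k < p → IsUnit (k : A)) (a b : ℕ → A) (r : ℕ) : ∀ i0, 3 * r + 2 < p →
    4 ≤ p → Qf a b r i0 = 0 → ∀ i, i0 ≤ i → i ≤ i0 + r → a i = 0 ∧ b i = 0 := by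
  induction r with
  | zero =>
    intro i0 _ hp h i hi hi'
    have : i = i0 := by omega
    subst this
    refine t_zero a b i 1 0 (by simp) ?_
    rw [Qf] at h
    simp [h]
  | succ r ih =>
    intro i0 hp hp' h i hi hi'
    rw [Qf] at h
    have h8 : IsUnit (3 : A) := by have := hu 3 (by omega) (by omega); simpa using this
    have h0 := t_zero a b i0 _ _ (by
      rw [eval_prod]
      rw [IsUnit.prod_iff]
      intro l hl
      rw [mem_range] at hl
      have : (ee (i0 + l) : A[X]).eval (i0 : A) = 3 * ((((3 * l + 2 : ℕ)) : A) * (((3 * l + 1 : ℕ)) : A)) := by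
        simp only [ee, eval_mul, eval_C, eval_sub, eval_X]
        push_cast; ring
      rw [this]
      exact h8.mul ((hu (3 * l + 2) (by omega) (by omega)).mul (hu (3 * l + 1) (by omega) (by omega)))) h
    rcases Nat.eq_or_lt_of_le hi with hh | hh
    · subst hh; exact h0
    · obtain ⟨ha, hb⟩ := h0
      have ht : tt a b i0 = 0 := by simp [tt, ha, hb]
      rw [ht, zero_mul, zero_add] at h
      have hm : ((X - C (i0 : A)) ^ 2 : A[X]).Monic := (monic_X_sub_C _).pow 2
      have hq : Qf a b r (i0 + 1) = 0 := by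
        rwa [mul_comm, hm.mul_left_eq_zero_iff] at h
      exact ih (i0 + 1) (by omega) hp' hq i hh (by omega)

/-- **uniqueness** -/
theorem uniq {p : ℕ} (hu : ∀ k : ℕ, 0 < k → k < p → IsUnit (k : A)) (Cc : ℕ) (hC : 6 * Cc + 5 ≤ p) (a b : ℕ → A)
    (h : ∀ N ≤ 2 * Cc + 1, ∑ i ∈ range (Cc + 1), (if i ≤ N then
      (h3 (N - i) : A) * (a i + ((N : A) - i) * b i) else 0) = 0) :
    ∀ i ≤ Cc, a i = 0 ∧ b i = 0 := by
  have hunit : ∀ N ≤ 2 * Cc + 1, IsUnit (h3 N : A) := by
    intro N
    induction N with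
    | zero => intro _; simp [h3]
    | succ N ih =>
      intro hN
      have h1 := h3_succ (A := A) N
      have h8 : IsUnit (3 : A) := by have := hu 3 (by omega) (by omega); simpa using this
      have h2 : IsUnit (3 * ((3 * (N : A) + 1) * (3 * (N : A) + 2)) * (h3 N : A)) := by
        refine (h8.mul (IsUnit.mul ?_ ?_)).mul (ih (by omega))
        · have := hu (3 * N + 1) (by omega) (by omega)
          push_cast at this
          exact this
        · have := hu (3 * N + 2) (by omega) (by omega)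
          push_cast at this
          exact this
      rw [← h1] at h2
      exact isUnit_of_mul_isUnit_left h2
  have hQ : Qf a b Cc 0 = 0 := by
    apply eq_zero_of_roots (2 * Cc + 2)
    · exact lt_of_le_of_lt (Qf_deg a b Cc 0) (by omega)
    · intro k hk hk'
      exact hu k hk (by omega)
    · intro N hN
      have h1 := Qf_eval a b Cc 0 N (Nat.zero_le N)
      have h2 : Ss a b Cc 0 N = 0 := by
        unfold Ss
        have hN' := h N (by omega)
        refine Eq.trans (sum_congr rfl fun i _ => ?_) hN'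
        rw [zero_add]
        by_cases hi : i ≤ N
        · rw [if_pos hi, if_pos hi]
          congr 1
          simp only [tt, eval_add, eval_mul, eval_C, eval_sub, eval_X]
          ring
        · rw [if_neg hi, if_neg hi]
      rw [h2, mul_zero, Nat.sub_zero] at h1
      exact (hunit N (by omega)).mul_right_eq_zero.mp h1
  intro i hi
  exact Qf_zero hu a b Cc 0 (by omega) (by omega) hQ i (Nat.zero_le i) (by omega)

section rz

variable {p : ℕ} [hp : Fact p.Prime] {z0 : A}

theorem R_zero (hu : ∀ k : ℕ, 0 < k → k < p → IsUnit (k : A)) (hz : IsUnit z0) (Cc : ℕ) (hC : 6 * Cc + 5 ≤ p)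
    {R0 R1 : A[X]} (h0 : R0.natDegree < (Cc + 1) * p) (h1 : R1.natDegree < (Cc + 1) * p)
    (hrel : PowerSeries.X ^ (p * (2 * Cc + 2)) ∣
      (R1 : PowerSeries A) * fT p z0 (Ff (fun k => (h3 k : A)) 1 (2 * Cc + 2)) +
      (R0 : PowerSeries A) * fT p z0 (Ff (fun k => (h3 k : A)) 0 (2 * Cc + 2))) :
    R0 = 0 ∧ R1 = 0 := by
  have hp0 := hp.out.pos
  have key : ∀ j < p, ∀ i ≤ Cc, z0 ^ (Cc - i) * R0.coeff (j + p * i) = 0 ∧ z0 ^ (Cc - i) * R1.coeff (j + p * i) = 0 := by
    intro j hj
    refine uniq hu Cc hC (fun i => z0 ^ (Cc - i) * R0.coeff (j + p * i)) (fun i => z0 ^ (Cc - i) * R1.coeff (j + p * i)) ?_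
    intro N hN
    have hc := (PowerSeries.X_pow_dvd_iff.mp hrel) (j + p * N) (by
      have := Nat.mul_le_mul_left p (show N + 1 ≤ 2 * Cc + 2 by omega)
      rw [Nat.mul_succ] at this
      omega)
    rw [map_add, coeff_RF R1 1 _ N j Cc h1 (by omega) hj,
      coeff_RF R0 0 _ N j Cc h0 (by omega) hj, ← sum_add_distrib] at hc
    have hzN : IsUnit (z0 ^ N) := hz.pow N
    have : z0 ^ N * (∑ i ∈ range (Cc + 1), (if i ≤ N then
      (h3 (N - i) : A) * (z0 ^ (Cc - i) * R0.coeff (j + p * i) + ((N : A) - i) * (z0 ^ (Cc - i) * R1.coeff (j + p * i))) else 0)) = 0 := by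
      have hc' := congrArg (fun x => z0 ^ Cc * x) hc
      simp only [mul_zero] at hc'
      refine Eq.trans ?_ hc'
      rw [mul_sum, mul_sum]
      refine sum_congr rfl fun i hi => ?_
      rw [mem_range] at hi
      by_cases hiN : i ≤ N
      · simp only [if_pos hiN]
        have e : z0 ^ N * z0 ^ (Cc - i) = z0 ^ Cc * z0 ^ (N - i) := by
          rw [← pow_add, ← pow_add]; congr 1; omega
        rw [Nat.cast_sub hiN]
        linear_combination ((h3 (N - i) : A) * (R0.coeff (j + p * i) + ((N : A) - i) * R1.coeff (j + p * i))) * e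
      · simp only [if_neg hiN, mul_zero, add_zero]
    exact hzN.mul_right_eq_zero.mp this
  have fin : ∀ R : A[X], R.natDegree < (Cc + 1) * p → (∀ j < p, ∀ i ≤ Cc, z0 ^ (Cc - i) * R.coeff (j + p * i) = 0) → R = 0 := by
    intro R hR hk
    ext n
    rw [coeff_zero]
    by_cases hn : n < (Cc + 1) * p
    · have h := hk (n % p) (Nat.mod_lt _ hp0) (n / p) (by
        have := Nat.div_lt_of_lt_mul (by rwa [mul_comm] at hn : n < p * (Cc + 1))
        omega)
      rw [Nat.mod_add_div] at h
      exact (hz.pow _).mul_right_eq_zero.mp h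
    · exact R.coeff_eq_zero_of_natDegree_lt (lt_of_lt_of_le hR (not_lt.mp hn))
  exact ⟨fin R0 h0 fun j hj i hi => (key j hj i hi).1, fin R1 h1 fun j hj i hi => (key j hj i hi).2⟩

end rz

theorem phi_Ff (K : ℕ) : PowerSeries.X ^ K ∣ phi A - Ff (fun k => (h3 k : A)) 0 K := by
  rw [PowerSeries.X_pow_dvd_iff]
  intro m hm
  unfold phi Ff
  rw [map_sub, PowerSeries.coeff_mk, map_sum, Finset.sum_eq_single m]
  · rw [PowerSeries.coeff_C_mul, PowerSeries.coeff_X_pow, if_pos rfl, pow_zero, one_mul, mul_one, sub_self]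
  · intro b _ hb
    rw [PowerSeries.coeff_C_mul, PowerSeries.coeff_X_pow, if_neg (Ne.symm hb), mul_zero]
  · intro h
    exact absurd (mem_range.mpr hm) h

theorem th_Ff (u : ℕ → A) (K : ℕ) : th (Ff u 0 K) = Ff u 1 K := by
  unfold Ff
  rw [th_sum]
  refine sum_congr rfl fun k _ => ?_
  rw [th_mul, th_C, th_X_pow, zero_mul, zero_add, pow_zero, one_mul, pow_one, map_mul, map_natCast PowerSeries.C k]
  ring

theorem U : S_U := by
  intro A _ p hp h53 hu x1 hx1 R0 R1 d0 d1 hrel
  have h2u : IsUnit ((2 : ℕ) : A) := hu 2 (by norm_num) (by omega)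
  have hφ : IsUnit (fT p x1 (phi A)) := by
    rw [PowerSeries.isUnit_iff_constantCoeff, fT_cc]
    unfold phi
    rw [← PowerSeries.coeff_zero_eq_constantCoeff_apply, PowerSeries.coeff_mk]
    simp [h3]
  have e1 : (R1 : PowerSeries A) * fT p x1 (th (phi A ^ 2)) + (R0 : PowerSeries A) * fT p x1 (phi A ^ 2) =
      fT p x1 (phi A) * (((2 * R1 : A[X]) : PowerSeries A) * fT p x1 (th (phi A)) + (R0 : PowerSeries A) * fT p x1 (phi A)) := by
    have : th (phi A ^ 2) = 2 * (phi A * th (phi A)) := by rw [pow_two, th_mul]; ring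
    have h2 : ((2 : A[X]) : PowerSeries A) = 2 := by
      have : (2 : A[X]) = C 2 := by rw [map_ofNat]
      rw [this, Polynomial.coe_C, map_ofNat]
    rw [this, Polynomial.coe_mul, h2, map_mul, map_mul, map_ofNat, map_pow]
    ring
  rw [e1] at hrel
  obtain ⟨u, hu'⟩ := hφ
  rw [← hu'] at hrel
  have h1 := (Units.dvd_mul_left (u := u)).mp hrel
  rw [hu'] at h1
  have a0 := fT_dvd (p := p) x1 (phi_Ff (A := A) 18)
  have a1 := fT_dvd (p := p) x1 (th_dvd (phi_Ff (A := A) 18))
  rw [map_sub] at a0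
  rw [th_sub, map_sub, th_Ff] at a1
  have h4 : PowerSeries.X ^ (p * (2 * 8 + 2)) ∣
      ((2 * R1 : A[X]) : PowerSeries A) * fT p x1 (Ff (fun k => (h3 k : A)) 1 (2 * 8 + 2)) +
      (R0 : PowerSeries A) * fT p x1 (Ff (fun k => (h3 k : A)) 0 (2 * 8 + 2)) := by
    obtain ⟨q1, hq1⟩ := h1
    obtain ⟨q2, hq2⟩ := a0
    obtain ⟨q3, hq3⟩ := a1
    refine ⟨q1 - ((2 * R1 : A[X]) : PowerSeries A) * q3 - (R0 : PowerSeries A) * q2, ?_⟩
    linear_combination hq1 - ((2 * R1 : A[X]) : PowerSeries A) * hq3 - (R0 : PowerSeries A) * hq2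
  have hd : (2 * R1 : A[X]).natDegree < (8 + 1) * p := by
    have : (2 : A[X]) = C 2 := by rw [map_ofNat]
    rw [this]
    exact lt_of_le_of_lt (natDegree_C_mul_le _ _) (by omega)
  obtain ⟨r0, r1⟩ := R_zero hu hx1 8 (by omega) (by omega) hd h4
  refine ⟨r0, ?_⟩
  have h2' : IsUnit (2 : A[X]) := by
    have := h2u.map (C : A →+* A[X])
    rw [map_natCast] at this
    exact_mod_cast this
  exact h2'.mul_right_eq_zero.mp r1

end Pool.Agent.H547.C9.Un
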