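import Pool.Agent.H120.C9.A
import Pool.Agent.H134.C9.Six
import Pool.Agent.H21.C9.Bf
import Pool.Agent.H224.C9.D
import Pool.Agent.H249.C9.F5
import Pool.Agent.H296.C9.E2Fc
import Pool.Agent.H415.C9.F6
import Pool.Agent.H457.C9.Bc
import Pool.Agent.H650.C9.E1
import Pool.Agent.H75.C9.E3
import Pool.Agent.H980.C9.CA
import Pool.Agent.H980.C9.FA
import Pool.Agent.H990.C9.B
import Pool.Agent.H547.C9.R2
import Pool.Agent.H547.C9.U

set_option autoImplicit false

/-!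
# The six congruences of MP_c9f782 for every prime `p > 5`
-/

namespace Pool.Agent.H547.C9

theorem SR : S_R := Rel.R Pool.Agent.H21.C9.Bf Pool.Agent.H457.C9.Bc Un.U Pool.Agent.H296.C9.Fch

theorem all_six (p : ℕ) [Fact p.Prime] (hp : 5 < p) : Six p := by
  rcases Nat.lt_or_ge p 60 with h | h
  · exact Pool.Agent.H134.C9.small p hp h
  · obtain ⟨a1, a2, a3, a4, a5⟩ := Pool.Agent.H249.C9.five Pool.Agent.H120.C9.a Pool.Agent.H990.C9B.b Pool.Agent.H980.C9.C.c Pool.Agent.H224.C9.X_d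
      Pool.Agent.H650.C9.E1 Pool.Agent.H296.C9.E2 Pool.Agent.H75.C9.E3 p (by omega)
    exact ⟨a1, fun _ => a2, a3, fun _ => a4, a5, Pool.Agent.H415.C9F6.sixth Pool.Agent.H980.C9.F.f SR Pool.Agent.H296.C9.Fch p (by omega)⟩

end Pool.Agent.H547.C9
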