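import Pool.Agent.H547.C9.Stm3

set_option autoImplicit false
set_option linter.unusedSectionVars false

/-!
# The relation between the truncated sextic and cubic sums modulo `p²`
-/

namespace Pool.Agent.H547.C9.Rel

open Finset PowerSeries Pool.Agent.H547.P3 Pool.Agent.H547.P4 Pool.Agent.H547.C9

section gen

variable {S : Type} [CommRing S]

theorem affpow {T M δ : S} (hδ : δ ^ 2 = 0) (κ : ℕ) : (T * (M + δ)) ^ κ * M = (T * M) ^ κ * (M + κ * δ) := by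
  induction κ with
  | zero => simp
  | succ κ ih =>
    rw [pow_succ, pow_succ]
    push_cast
    linear_combination (T * (M + δ)) * ih + ((T * M) ^ κ * T * κ) * hδ

/-- the cubic block -/
def Fz (p : ℕ) (x : S) (α : ℕ → S) : S := ∑ j ∈ range p, α j * (x * (1 - 27 * x)) ^ j

/-- the sextic block -/
def Cz (p : ℕ) (x : S) (γ : ℕ → S) : S := ∑ j ∈ range p, γ j * ((x * (1 - 27 * x) ^ 3) ^ j * (1 + 216 * x) ^ (3 * (p - 1 - j)))

def DM (p : ℕ) (x τ : S) : S := (1 - 27 * x) ^ p - (1 - 27 * τ)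
def DL (p : ℕ) (x τ : S) : S := (1 + 216 * x) ^ p - (1 + 216 * τ)

def Fb (p : ℕ) (x τ e : S) (α δ : ℕ → S) : S :=
  (1 - 27 * τ) * Fz p x δ + ((e - 1) * (1 - 27 * τ) + DM p x τ) * Fz p x α

def Dt (p : ℕ) (x τ e : S) : S :=
  (e - 1) * ((1 - 27 * τ) * (1 + 216 * τ)) + 3 * DM p x τ * (1 + 216 * τ) - 3 * DL p x τ * (1 - 27 * τ)

def Ca (p n : ℕ) (x τ h : S) (γ : ℕ → S) : S := (1 + 216 * x) ^ n * ((1 + 216 * τ) - h * DL p x τ) * Cz p x γ

def Cb (p n : ℕ) (x τ e : S) (γ ζ : ℕ → S) : S :=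
  (1 + 216 * x) ^ n * (Dt p x τ e * Cz p x γ + (1 - 27 * τ) * (1 + 216 * τ) * Cz p x ζ)

def R0 (p n : ℕ) (x τ e h : S) (α γ ζ : ℕ → S) : S :=
  (1 - 54 * τ) * ((1 - 540 * τ - 5832 * τ ^ 2) * Ca p n x τ h γ + 108 * τ * Cb p n x τ e γ ζ) -
    (1 - 54 * τ) * (1 - 540 * τ - 5832 * τ ^ 2) * (1 + 216 * τ) * (1 + 216 * x) ^ (3 * (p - 1)) * Fz p x α

def R1 (p n : ℕ) (x τ e : S) (α δ γ ζ : ℕ → S) : S :=
  (1 - 54 * τ) * (1 + 216 * τ) * Cb p n x τ e γ ζ -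
    (1 - 540 * τ - 5832 * τ ^ 2) * (1 + 216 * τ) * (1 + 216 * x) ^ (3 * (p - 1)) * Fb p x τ e α δ

variable {S' : Type} [CommRing S'] (ψ : S →+* S')

theorem map_R0 (p n : ℕ) (x τ e h : S) (α γ ζ : ℕ → S) : ψ (R0 p n x τ e h α γ ζ) =
    R0 p n (ψ x) (ψ τ) (ψ e) (ψ h) (fun j => ψ (α j)) (fun j => ψ (γ j)) (fun j => ψ (ζ j)) := by
  unfold R0 Ca Cb Dt DL DM Fz Cz
  simp only [map_sub, map_add, map_mul, map_pow, map_one, map_ofNat, map_sum]

theorem map_R1 (p n : ℕ) (x τ e : S) (α δ γ ζ : ℕ → S) : ψ (R1 p n x τ e α δ γ ζ) =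
    R1 p n (ψ x) (ψ τ) (ψ e) (fun j => ψ (α j)) (fun j => ψ (δ j)) (fun j => ψ (γ j)) (fun j => ψ (ζ j)) := by
  unfold R1 Cb Fb Dt DL DM Fz Cz
  simp only [map_sub, map_add, map_mul, map_pow, map_one, map_ofNat, map_sum]

end gen

section ps

variable {A : Type} [CommRing A]

theorem powp {S : Type} [CommRing S] {p : ℕ} [hp : Fact p.Prime] {x τ μ c t : S} (hx : x ^ p = τ * (1 + p * μ)) (hc : c ^ p = c + p * t) :
    ∃ N, (1 + c * x) ^ p = 1 + c * τ + p * N := by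
  obtain ⟨r, hr⟩ := exists_add_pow_prime_eq hp.out (1 : S) (c * x)
  refine ⟨c * x * r + c * τ * μ + t * τ * (1 + p * μ), ?_⟩
  rw [hr, one_pow, mul_pow, hx, hc]
  ring

noncomputable def GF (A : Type) [CommRing A] (i K : ℕ) : A⟦X⟧ := ∑ k ∈ range K, C ((k : A) ^ i * (v3 k : A)) * (X * (1 - 27 * X)) ^ k

noncomputable def GC (σ : A⟦X⟧) (i K : ℕ) : A⟦X⟧ :=
  ∑ k ∈ range K, C ((k : A) ^ i * (v1 k : A)) * ((X * (1 - 27 * X) ^ 3) ^ k * σ ^ (6 * k + 1))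

theorem th_nat (n : ℕ) [n.AtLeastTwo] : th (OfNat.ofNat n : A⟦X⟧) = 0 := by
  have : (OfNat.ofNat n : A⟦X⟧) = C (OfNat.ofNat n : A) := by rw [map_ofNat]
  rw [this, th_C]

theorem th_one' : th (1 : A⟦X⟧) = 0 := by
  have := th_C (1 : A)
  rwa [map_one] at this

theorem th_pow' {M Q a : A⟦X⟧} (h : M * th a = Q * a) (k : ℕ) : M * th (a ^ k) = (k : A⟦X⟧) * Q * a ^ k := by
  induction k with
  | zero => rw [pow_zero, th_one']; simp
  | succ k ih =>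
    rw [pow_succ, th_mul]
    push_cast
    linear_combination a * ih + a ^ k * h

theorem th_GF (K : ℕ) : (1 - 27 * X) * th (GF A 0 K) = (1 - 54 * X) * GF A 1 K := by
  unfold GF
  rw [th_sum, mul_sum, mul_sum]
  refine sum_congr rfl fun k _ => ?_
  have h1 : (1 - 27 * X : A⟦X⟧) * th (X * (1 - 27 * X)) = (1 - 54 * X) * (X * (1 - 27 * X)) := by
    rw [th_mul, th_sub, th_one', th_mul, th_nat, th_X]
    ring
  have h2 := th_pow' h1 k
  have hk : (C (k : A) : A⟦X⟧) = (k : A⟦X⟧) := map_natCast _ _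
  rw [th_mul, th_C, pow_zero, one_mul, pow_one, map_mul, hk]
  linear_combination (C (v3 k : A)) * h2

variable {σ : A⟦X⟧}

theorem th_sig {h : A} (hh : 2 * h = 1) (hs : σ ^ 2 * (1 + 216 * X) = 1) : (1 + 216 * X) * th σ = -108 * X * σ := by
  have h1 := congrArg th hs
  rw [pow_two, th_mul, th_mul, th_one', th_add, th_one', th_mul, th_nat, th_X] at h1
  have hC : (2 : A⟦X⟧) * C h = 1 := by
    have := congrArg (C (R := A)) hh
    rwa [map_mul, map_one, map_ofNat] at this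
  linear_combination (C h * σ * (1 + 216 * X)) * h1 + (-(2 * C h) * (1 + 216 * X) * th σ - 216 * C h * X * σ) * hs +
    (-(1 + 216 * X) * th σ - 108 * X * σ) * hC

theorem th_GC {h : A} (hh : 2 * h = 1) (hs : σ ^ 2 * (1 + 216 * X) = 1) (K : ℕ) :
    (1 - 27 * X) * (1 + 216 * X) * th (GC σ 0 K) = (1 - 540 * X - 5832 * X ^ 2) * GC σ 1 K - 108 * X * (1 - 27 * X) * GC σ 0 K := by
  unfold GC
  rw [th_sum, mul_sum, mul_sum, mul_sum, ← sum_sub_distrib]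
  refine sum_congr rfl fun k _ => ?_
  have h0 : (1 - 27 * X : A⟦X⟧) * th (X * (1 - 27 * X) ^ 3) = (1 - 108 * X) * (X * (1 - 27 * X) ^ 3) := by
    have e : (1 - 27 * X : A⟦X⟧) ^ 3 = (1 - 27 * X) * (1 - 27 * X) * (1 - 27 * X) := by ring
    rw [e, th_mul, th_mul, th_mul, th_sub, th_one', th_mul, th_nat, th_X]
    ring
  have h2 := th_pow' h0 k
  have h3 := th_pow' (M := 1 + 216 * X) (Q := -108 * X) (a := σ) (th_sig hh hs) (6 * k + 1)
  have hk : (C (k : A) : A⟦X⟧) = (k : A⟦X⟧) := map_natCast _ _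
  rw [th_mul, th_C, th_mul, pow_zero, one_mul, pow_one, map_mul, hk]
  push_cast at h3
  linear_combination (C (v1 k : A)) * (1 + 216 * X) * σ ^ (6 * k + 1) * h2 + (C (v1 k : A)) * (1 - 27 * X) * (X * (1 - 27 * X) ^ 3) ^ k * h3

end ps

section sides

variable {A : Type} [CommRing A] {p n : ℕ} [hp : Fact p.Prime]

theorem C_cast_p : (C (p : A) : A⟦X⟧) = (p : A⟦X⟧) := map_natCast _ _

theorem P2B (hP : (p : A) ^ 2 = 0) : (p : A⟦X⟧) ^ 2 = 0 := by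
  have := congrArg (C (R := A)) hP
  rwa [map_pow, map_natCast, map_zero] at this

theorem x_pow {x0 x1 e ν : A} (hz : x0 ^ p = x1 * e) (he : e = 1 + p * ν) :
    (C x0 * X : A⟦X⟧) ^ p = (C x1 * X ^ p) * (1 + (p : A⟦X⟧) * C ν) := by
  rw [mul_pow, ← map_pow, hz, he, map_mul, map_add, map_one, map_mul, C_cast_p]
  ring

theorem DM_ex {S : Type} [CommRing S] (hodd : Odd p) {x τ μ : S} (hx : x ^ p = τ * (1 + p * μ)) : ∃ N, DM p x τ = p * N := by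
  obtain ⟨r, hr⟩ := cast_pow_p (A := S) (p := p) 27
  obtain ⟨N, hN⟩ := powp (p := p) (c := -27) (t := -r) hx (by
    rw [hodd.neg_pow]
    push_cast at hr
    rw [hr]; ring)
  refine ⟨N, ?_⟩
  unfold DM
  have e : (1 - 27 * x) = 1 + -27 * x := by ring
  rw [e, hN]; ring

theorem DL_ex {S : Type} [CommRing S] {x τ μ : S} (hx : x ^ p = τ * (1 + p * μ)) : ∃ N, DL p x τ = p * N := by
  obtain ⟨r, hr⟩ := cast_pow_p (A := S) (p := p) 216
  obtain ⟨N, hN⟩ := powp (p := p) (c := 216) (t := r) hx (by push_cast at hr; exact hr)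
  refine ⟨N, ?_⟩
  unfold DL
  rw [hN]; ring

theorem side_f {x0 x1 e ν : A} {α δ : ℕ → A} (hP : (p : A) ^ 2 = 0) (hodd : Odd p) (hz : x0 ^ p = x1 * e) (he : e = 1 + p * ν)
    (hv : ∀ κ j : ℕ, j < p → (v3 (p * κ + j) : A) = v3 κ * (α j + κ * δ j)) (hδ : ∀ j < p, ∃ b, δ j = p * b)
    (hb : ∀ K, X ^ K ∣ phi A ^ 2 - GF A 0 K) (K : ℕ) :
    X ^ (p * K) ∣ (1 - 27 * (C x1 * X ^ p)) * fZ x0 (phi A ^ 2) -
      ((1 - 27 * (C x1 * X ^ p)) * Fz p (C x0 * X) (fun j => C (α j)) * fT p x1 (GF A 0 K) +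
        Fb p (C x0 * X) (C x1 * X ^ p) (C e) (fun j => C (α j)) (fun j => C (δ j)) * fT p x1 (GF A 1 K)) := by
  have hP2 := P2B hP
  have hx := x_pow hz he
  set x : A⟦X⟧ := C x0 * X with hxd
  set τ : A⟦X⟧ := C x1 * X ^ p with hτd
  obtain ⟨N, hN⟩ := DM_ex hodd hx
  have hCe : (C e : A⟦X⟧) = 1 + p * C ν := by rw [he, map_add, map_one, map_mul, C_cast_p]
  set δ' : A⟦X⟧ := (C e - 1) * (1 - 27 * τ) + DM p x τ with hδ'
  have hδp : δ' = p * (C ν * (1 - 27 * τ) + N) := by rw [hδ', hCe, hN]; ring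
  have hδ2 : δ' ^ 2 = 0 := by rw [hδp, mul_pow, hP2, zero_mul]
  have hMe : (1 - 27 * x) ^ p * C e = (1 - 27 * τ) + δ' := by
    have h1 : (1 - 27 * x) ^ p = (1 - 27 * τ) + DM p x τ := by unfold DM; ring
    rw [h1, hδ', hCe, hN]
    linear_combination (C ν * N) * hP2
  have hxM : (x * (1 - 27 * x)) ^ p = τ * ((1 - 27 * τ) + δ') := by
    rw [mul_pow, hx, ← hMe, hCe]; ring
  have key : ∀ κ : ℕ, (1 - 27 * τ) * ∑ j ∈ range p, C (v3 (p * κ + j) : A) * (x * (1 - 27 * x)) ^ (p * κ + j) =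
      C (v3 κ : A) * (τ * (1 - 27 * τ)) ^ κ * ((1 - 27 * τ) * Fz p x (fun j => C (α j)) +
        (κ : A⟦X⟧) * Fb p x τ (C e) (fun j => C (α j)) (fun j => C (δ j))) := by
    intro κ
    have h1 := affpow (T := τ) (M := 1 - 27 * τ) hδ2 κ
    have h2 : ∑ j ∈ range p, C (v3 (p * κ + j) : A) * (x * (1 - 27 * x)) ^ (p * κ + j) =
        C (v3 κ : A) * ((x * (1 - 27 * x)) ^ p) ^ κ * (Fz p x (fun j => C (α j)) + (κ : A⟦X⟧) * Fz p x (fun j => C (δ j))) := by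
      unfold Fz
      rw [mul_sum, ← sum_add_distrib, mul_sum]
      refine sum_congr rfl fun j hj => ?_
      rw [mem_range] at hj
      rw [hv κ j hj, map_mul, map_add, map_mul, map_natCast C κ, pow_add, pow_mul]
      ring
    have h3 : δ' * Fz p x (fun j => C (δ j)) = 0 := by
      unfold Fz
      rw [mul_sum]
      refine sum_eq_zero fun j hj => ?_
      rw [mem_range] at hj
      obtain ⟨b, hb⟩ := hδ j hj
      show δ' * (C (δ j) * (x * (1 - 27 * x)) ^ j) = 0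
      rw [hb, hδp, map_mul, C_cast_p]
      linear_combination ((C ν * (1 - 27 * τ) + N) * C b * (x * (1 - 27 * x)) ^ j) * hP2
    rw [h2, hxM]
    unfold Fb
    rw [← hδ']
    linear_combination (C (v3 κ : A) * (Fz p x (fun j => C (α j)) + (κ : A⟦X⟧) * Fz p x (fun j => C (δ j)))) * h1 +
      (C (v3 κ : A) * (τ * (1 - 27 * τ)) ^ κ * (κ : A⟦X⟧) ^ 2) * h3
  have h1 := fZ_dvd x0 (hb (p * K))
  rw [map_sub] at h1
  have hZ : fZ x0 (GF A 0 (p * K)) = ∑ k ∈ range (p * K), C (v3 k : A) * (x * (1 - 27 * x)) ^ k := by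
    unfold GF
    rw [map_sum]
    refine sum_congr rfl fun k _ => ?_
    simp only [map_mul (fZ x0), map_pow (fZ x0), map_sub (fZ x0), map_one, map_ofNat, fZ_C, fZ_X, pow_zero, one_mul]
    rfl
  have hT : ∀ i : ℕ, fT p x1 (GF A i K) = ∑ k ∈ range K, C ((k : A) ^ i * (v3 k : A)) * (τ * (1 - 27 * τ)) ^ k := by
    intro i
    unfold GF
    rw [map_sum]
    refine sum_congr rfl fun k _ => ?_
    rw [map_mul (fT p x1), fT_C, map_pow (fT p x1), map_mul (fT p x1), fT_X, map_sub (fT p x1), map_mul (fT p x1), fT_X, map_one, map_ofNat]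
  have e1 : (1 - 27 * τ) * fZ x0 (GF A 0 (p * K)) = (1 - 27 * τ) * Fz p x (fun j => C (α j)) * fT p x1 (GF A 0 K) +
        Fb p x τ (C e) (fun j => C (α j)) (fun j => C (δ j)) * fT p x1 (GF A 1 K) := by
    rw [hZ, sum_blocks, mul_sum, sum_congr rfl fun κ _ => key κ, hT, hT, mul_sum, mul_sum, ← sum_add_distrib]
    refine sum_congr rfl fun κ _ => ?_
    rw [pow_zero, one_mul, pow_one, map_mul, map_natCast C κ]
    ring
  rw [← e1, ← mul_sub]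
  exact dvd_mul_of_dvd_right h1 _

theorem root_eq {h : A} (hh : 2 * h = 1) {y s : A⟦X⟧} (h2 : y ^ 2 = s ^ 2) (hy : constantCoeff y = 1) (hs : constantCoeff s = 1) : y = s := by
  have h3 : (y - s) * (y + s) = 0 := by linear_combination h2
  have hu : IsUnit (y + s) := by
    rw [PowerSeries.isUnit_iff_constantCoeff, map_add, hy, hs]
    exact IsUnit.of_mul_eq_one h (by linear_combination hh)
  have := hu.mul_left_eq_zero.mp h3
  linear_combination this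

theorem side_c {σ : A⟦X⟧} {x0 x1 e ν h : A} {γ ζ : ℕ → A} (hP : (p : A) ^ 2 = 0) (hn : p = 2 * n + 1) (hh : 2 * h = 1)
    (hz : x0 ^ p = x1 * e) (he : e = 1 + p * ν)
    (hs : σ ^ 2 * (1 + 216 * X) = 1) (hsc : constantCoeff σ = 1)
    (hv : ∀ κ j : ℕ, j < p → (v1 (p * κ + j) : A) = v1 κ * (γ j + κ * ζ j)) (hζ : ∀ j < p, ∃ b, ζ j = p * b)
    (hb : ∀ K, X ^ K ∣ phi A ^ 2 - GC σ 0 K) (K : ℕ) :
    X ^ (p * K) ∣ (1 + 216 * (C x0 * X)) ^ (3 * (p - 1)) * ((1 - 27 * (C x1 * X ^ p)) * (1 + 216 * (C x1 * X ^ p)) ^ 2) * fZ x0 (phi A ^ 2) -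
      ((1 - 27 * (C x1 * X ^ p)) * (1 + 216 * (C x1 * X ^ p)) * Ca p n (C x0 * X) (C x1 * X ^ p) (C h) (fun j => C (γ j)) * fT p x1 (GC σ 0 K) +
        (1 + 216 * (C x1 * X ^ p)) * Cb p n (C x0 * X) (C x1 * X ^ p) (C e) (fun j => C (γ j)) (fun j => C (ζ j)) * fT p x1 (GC σ 1 K)) := by
  have hodd : Odd p := ⟨n, hn⟩
  have hP2 := P2B hP
  have hx := x_pow hz he
  have hC : (2 : A⟦X⟧) * C h = 1 := by
    have := congrArg (C (R := A)) hh
    rwa [map_mul, map_one, map_ofNat] at this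
  have hτc : constantCoeff (C x1 * X ^ p : A⟦X⟧) = 0 := by
    rw [map_mul, map_pow, constantCoeff_X, zero_pow hp.out.ne_zero, mul_zero]
  have hxc : constantCoeff (C x0 * X : A⟦X⟧) = 0 := by
    rw [map_mul, constantCoeff_X, mul_zero]
  have hs0 : (fZ x0 σ) ^ 2 * (1 + 216 * (C x0 * X)) = 1 := by
    have := congrArg (fZ x0) hs
    rwa [map_mul, map_pow, map_add, map_one, map_mul, fZ_X, map_ofNat] at this
  have hs1 : (fT p x1 σ) ^ 2 * (1 + 216 * (C x1 * X ^ p)) = 1 := by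
    have := congrArg (fT p x1) hs
    rwa [map_mul, map_pow, map_add, map_one, map_mul, fT_X, map_ofNat] at this
  have hc0 : constantCoeff (fZ x0 σ) = 1 := by rw [fZ_cc, hsc]
  have hc1 : constantCoeff (fT p x1 σ) = 1 := by rw [fT_cc, hsc]
  have hT : ∀ i : ℕ, fT p x1 (GC σ i K) = ∑ k ∈ range K, C ((k : A) ^ i * (v1 k : A)) *
      (((C x1 * X ^ p) * (1 - 27 * (C x1 * X ^ p)) ^ 3) ^ k * (fT p x1 σ) ^ (6 * k + 1)) := by
    intro i
    unfold GC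
    rw [map_sum]
    refine sum_congr rfl fun k _ => ?_
    rw [map_mul (fT p x1), fT_C, map_mul (fT p x1), map_pow (fT p x1), map_mul (fT p x1), fT_X, map_pow (fT p x1), map_sub (fT p x1),
      map_mul (fT p x1), fT_X, map_one, map_ofNat, map_pow (fT p x1)]
  have hZ : fZ x0 (GC σ 0 (p * K)) = ∑ k ∈ range (p * K), C (v1 k : A) *
      (((C x0 * X) * (1 - 27 * (C x0 * X)) ^ 3) ^ k * (fZ x0 σ) ^ (6 * k + 1)) := by
    unfold GC
    rw [map_sum]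
    refine sum_congr rfl fun k _ => ?_
    rw [map_mul (fZ x0), fZ_C, map_mul (fZ x0), map_pow (fZ x0), map_mul (fZ x0), fZ_X, map_pow (fZ x0), map_sub (fZ x0),
      map_mul (fZ x0), fZ_X, map_one, map_ofNat, map_pow (fZ x0), pow_zero, one_mul]
  set x : A⟦X⟧ := C x0 * X with hxd
  set τ : A⟦X⟧ := C x1 * X ^ p with hτd
  set s : A⟦X⟧ := fZ x0 σ with hsd
  set t : A⟦X⟧ := fT p x1 σ with htd
  obtain ⟨N, hN⟩ := DM_ex hodd hx
  obtain ⟨N', hN'⟩ := DL_ex hx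
  have hCe : (C e : A⟦X⟧) = 1 + p * C ν := by rw [he, map_add, map_one, map_mul, C_cast_p]
  set D := DM p x τ with hD
  set E := DL p x τ with hE
  have hM : (1 - 27 * x) ^ p = (1 - 27 * τ) + D := by rw [hD]; unfold DM; ring
  have hL : (1 + 216 * x) ^ p = (1 + 216 * τ) + E := by rw [hE]; unfold DL; ring
  have hDD : D ^ 2 = 0 := by rw [hN, mul_pow, hP2, zero_mul]
  have hEE : E ^ 2 = 0 := by rw [hN', mul_pow, hP2, zero_mul]
  have hDE : D * E = 0 := by rw [hN, hN']; linear_combination (N * N') * hP2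
  have hnu : ∀ y : A⟦X⟧, (C e - 1) * (p * y) = 0 := fun y => by rw [hCe]; linear_combination (C ν * y) * hP2
  -- the square root
  have hroot : s * (1 + 216 * τ) = t * (1 + 216 * x) ^ n * ((1 + 216 * τ) - C h * E) := by
    have hy : t * (1 + 216 * x) ^ n * (1 - C h * E * t ^ 2) = s := by
      apply root_eq hh
      · have e1 : ((1 + 216 * x) ^ n) ^ 2 * (1 + 216 * x) = (1 + 216 * τ) + E := by
          rw [← hL, ← pow_mul, ← pow_succ]; congr 1; omega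
        have h5 : (t * (1 + 216 * x) ^ n * (1 - C h * E * t ^ 2)) ^ 2 * (1 + 216 * x) = 1 := by
          have : (t * (1 + 216 * x) ^ n * (1 - C h * E * t ^ 2)) ^ 2 * (1 + 216 * x) =
              t ^ 2 * (1 - C h * E * t ^ 2) ^ 2 * (((1 + 216 * x) ^ n) ^ 2 * (1 + 216 * x)) := by ring
          rw [this, e1]
          linear_combination (1 - 2 * C h * E * t ^ 2 + (C h * t ^ 2) ^ 2 * E ^ 2) * hs1 - (E * t ^ 2) * hC +
            (t ^ 2 * (-2 * C h * t ^ 2) + t ^ 2 * (C h * t ^ 2) ^ 2 * E + (C h * t ^ 2) ^ 2) * hEE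
        have h6 : ((t * (1 + 216 * x) ^ n * (1 - C h * E * t ^ 2)) ^ 2 - s ^ 2) * (1 + 216 * x) = 0 := by
          linear_combination h5 - hs0
        linear_combination s ^ 2 * h6 - ((t * (1 + 216 * x) ^ n * (1 - C h * E * t ^ 2)) ^ 2 - s ^ 2) * hs0
      · have hEc : constantCoeff E = 0 := by
          rw [hE]; unfold DL
          simp only [map_sub, map_add, map_mul, map_pow, map_one, map_ofNat, hxc, hτc]
          ring
        simp only [map_sub, map_add, map_mul, map_pow, map_one, map_ofNat, hxc, hEc, hc1]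
        ring
      · exact hc0
    rw [← hy]
    linear_combination (-(t * (1 + 216 * x) ^ n * C h * E)) * hs1
  have hCD : (C e - 1) * D = 0 := by rw [hN]; exact hnu N
  have hCE : (C e - 1) * E = 0 := by rw [hN']; exact hnu N'
  have hs2p : (s ^ 2) ^ p = t ^ 2 * (1 - E * t ^ 2) := by
    have h1 : (s ^ 2) ^ p * ((1 + 216 * τ) + E) = 1 := by rw [← hL, ← mul_pow, hs0, one_pow]
    linear_combination (t ^ 2 * (1 - E * t ^ 2)) * h1 - ((s ^ 2) ^ p * (1 - E * t ^ 2)) * hs1 + ((s ^ 2) ^ p * t ^ 4) * hEE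
  set Δ := Dt p x τ (C e) with hΔ
  have hΔp : Δ = p * (C ν * ((1 - 27 * τ) * (1 + 216 * τ)) + 3 * N * (1 + 216 * τ) - 3 * N' * (1 - 27 * τ)) := by
    rw [hΔ]; unfold Dt
    rw [← hD, ← hE, hCe, hN, hN']; ring
  have hΔ2 : Δ ^ 2 = 0 := by rw [hΔp, mul_pow, hP2, zero_mul]
  have hΔE : Δ * E = 0 := by
    rw [hΔp, hN']
    linear_combination ((C ν * ((1 - 27 * τ) * (1 + 216 * τ)) + 3 * N * (1 + 216 * τ) - 3 * N' * (1 - 27 * τ)) * N') * hP2
  have hbase : (x * (1 - 27 * x) ^ 3 * s ^ 6) ^ p = (τ * (1 - 27 * τ) ^ 2 * t ^ 8) * ((1 - 27 * τ) * (1 + 216 * τ) + Δ) := by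
    have a1 : (1 - E * t ^ 2) ^ 3 = 1 - 3 * (E * t ^ 2) := by linear_combination (3 * t ^ 4 - E * t ^ 6) * hEE
    have a2 : ((1 - 27 * τ) + D) ^ 3 = (1 - 27 * τ) ^ 3 + 3 * (1 - 27 * τ) ^ 2 * D := by
      linear_combination (3 * (1 - 27 * τ) + D) * hDD
    have a3 : (x * (1 - 27 * x) ^ 3 * s ^ 6) ^ p = x ^ p * ((1 - 27 * x) ^ p) ^ 3 * ((s ^ 2) ^ p) ^ 3 := by
      rw [mul_pow, mul_pow, ← pow_mul, ← pow_mul, ← pow_mul, ← pow_mul, ← pow_mul]
      congr 2 <;> ring_nf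
    rw [a3, hx, hM, hs2p, mul_pow (t ^ 2), a1, a2, hΔ]
    unfold Dt
    rw [← hD, ← hE, ← hCe]
    linear_combination (τ * t ^ 6) * (-(C e * (1 - 27 * τ) ^ 3 + 3 * (1 - 27 * τ) ^ 2 * D) * hs1 + 3 * (1 - 27 * τ) ^ 2 * hCD -
      3 * (1 - 27 * τ) ^ 3 * t ^ 2 * hCE - 9 * C e * (1 - 27 * τ) ^ 2 * t ^ 2 * hDE)
  have hTN : (τ * (1 - 27 * τ) ^ 2 * t ^ 8) * ((1 - 27 * τ) * (1 + 216 * τ)) = τ * (1 - 27 * τ) ^ 3 * t ^ 6 := by
    linear_combination (τ * (1 - 27 * τ) ^ 3 * t ^ 6) * hs1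
  have hζ0 : ∀ y : A⟦X⟧, (p : A⟦X⟧) * y * Cz p x (fun j => C (ζ j)) = 0 := by
    intro y
    unfold Cz
    rw [mul_sum]
    refine sum_eq_zero fun j hj => ?_
    rw [mem_range] at hj
    obtain ⟨b, hb⟩ := hζ j hj
    show (p : A⟦X⟧) * y * (C (ζ j) * _) = 0
    rw [hb, map_mul, C_cast_p]
    linear_combination (y * C b * ((x * (1 - 27 * x) ^ 3) ^ j * (1 + 216 * x) ^ (3 * (p - 1 - j)))) * hP2
  have hEζ : E * Cz p x (fun j => C (ζ j)) = 0 := by rw [hN']; exact hζ0 N'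
  have hΔζ : Δ * Cz p x (fun j => C (ζ j)) = 0 := by rw [hΔp]; exact hζ0 _
  have key : ∀ κ : ℕ, (1 + 216 * x) ^ (3 * (p - 1)) * ((1 - 27 * τ) * (1 + 216 * τ) ^ 2) *
      ∑ j ∈ range p, C (v1 (p * κ + j) : A) * ((x * (1 - 27 * x) ^ 3) ^ (p * κ + j) * s ^ (6 * (p * κ + j) + 1)) =
      C (v1 κ : A) * ((τ * (1 - 27 * τ) ^ 3) ^ κ * t ^ (6 * κ + 1)) *
        ((1 - 27 * τ) * (1 + 216 * τ) * Ca p n x τ (C h) (fun j => C (γ j)) +
          (κ : A⟦X⟧) * ((1 + 216 * τ) * Cb p n x τ (C e) (fun j => C (γ j)) (fun j => C (ζ j)))) := by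
    intro κ
    have h1 := affpow (T := τ * (1 - 27 * τ) ^ 2 * t ^ 8) (M := (1 - 27 * τ) * (1 + 216 * τ)) hΔ2 κ
    rw [hTN] at h1
    have h2 : (1 + 216 * x) ^ (3 * (p - 1)) *
        ∑ j ∈ range p, C (v1 (p * κ + j) : A) * ((x * (1 - 27 * x) ^ 3) ^ (p * κ + j) * s ^ (6 * (p * κ + j) + 1)) =
        C (v1 κ : A) * ((x * (1 - 27 * x) ^ 3 * s ^ 6) ^ p) ^ κ * s *
          (Cz p x (fun j => C (γ j)) + (κ : A⟦X⟧) * Cz p x (fun j => C (ζ j))) := by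
      unfold Cz
      rw [mul_sum, mul_sum, ← sum_add_distrib, mul_sum]
      refine sum_congr rfl fun j hj => ?_
      rw [mem_range] at hj
      have e1 : (1 + 216 * x) ^ (3 * (p - 1)) = (1 + 216 * x) ^ (3 * (p - 1 - j)) * (1 + 216 * x) ^ (3 * j) := by
        rw [← pow_add]; congr 1; omega
      have e2 : (s ^ 6) ^ j * (1 + 216 * x) ^ (3 * j) = 1 := by
        have : (s ^ 2 * (1 + 216 * x)) ^ (3 * j) = 1 := by rw [hs0, one_pow]
        rw [mul_pow, ← pow_mul] at this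
        rw [← pow_mul, show 6 * j = 2 * (3 * j) by ring]
        exact this
      have e3 : s ^ (6 * (p * κ + j) + 1) = ((s ^ 6) ^ p) ^ κ * (s ^ 6) ^ j * s := by
        rw [← pow_mul, ← pow_mul, ← pow_mul, ← pow_add, ← pow_succ]; congr 1; ring
      have e4 : (x * (1 - 27 * x) ^ 3) ^ (p * κ + j) = ((x * (1 - 27 * x) ^ 3) ^ p) ^ κ * (x * (1 - 27 * x) ^ 3) ^ j := by
        rw [pow_add, pow_mul]
      have e5 : (x * (1 - 27 * x) ^ 3 * s ^ 6) ^ p = (x * (1 - 27 * x) ^ 3) ^ p * (s ^ 6) ^ p := mul_pow _ _ _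
      rw [hv κ j hj, map_mul, map_add, map_mul, map_natCast C κ, e1, e3, e4, e5, mul_pow ((x * (1 - 27 * x) ^ 3) ^ p)]
      linear_combination (C (v1 κ : A) * (C (γ j) + (κ : A⟦X⟧) * C (ζ j)) * (1 + 216 * x) ^ (3 * (p - 1 - j)) *
        ((x * (1 - 27 * x) ^ 3) ^ p) ^ κ * (x * (1 - 27 * x) ^ 3) ^ j * ((s ^ 6) ^ p) ^ κ * s) * e2
    have e6 : (τ * (1 - 27 * τ) ^ 3 * t ^ 6) ^ κ * t = (τ * (1 - 27 * τ) ^ 3) ^ κ * t ^ (6 * κ + 1) := by
      rw [mul_pow, ← pow_mul]; ring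
    rw [← e6]
    rw [hbase] at h2
    unfold Ca Cb
    rw [← hΔ, ← hE]
    set g := Cz p x (fun j => C (γ j))
    set z := Cz p x (fun j => C (ζ j))
    set PP := ((τ * (1 - 27 * τ) ^ 2 * t ^ 8) * ((1 - 27 * τ) * (1 + 216 * τ) + Δ)) ^ κ
    linear_combination ((1 - 27 * τ) * (1 + 216 * τ) ^ 2) * h2 +
      (C (v1 κ : A) * (s * (1 + 216 * τ)) * (g + (κ : A⟦X⟧) * z)) * h1 +
      (C (v1 κ : A) * (τ * (1 - 27 * τ) ^ 3 * t ^ 6) ^ κ * ((1 - 27 * τ) * (1 + 216 * τ) + κ * Δ) * (g + (κ : A⟦X⟧) * z)) * hroot +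
      (C (v1 κ : A) * (τ * (1 - 27 * τ) ^ 3 * t ^ 6) ^ κ * t * (1 + 216 * x) ^ n) *
        (-(C h * κ * g) * hΔE - (C h * κ * ((1 - 27 * τ) * (1 + 216 * τ))) * hEζ + (κ : A⟦X⟧) ^ 2 * ((1 + 216 * τ) - C h * E) * hΔζ)
  have h1 := fZ_dvd x0 (hb (p * K))
  rw [map_sub, hZ] at h1
  have e1 : (1 + 216 * x) ^ (3 * (p - 1)) * ((1 - 27 * τ) * (1 + 216 * τ) ^ 2) *
      (∑ k ∈ range (p * K), C (v1 k : A) * ((x * (1 - 27 * x) ^ 3) ^ k * s ^ (6 * k + 1))) =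
      (1 - 27 * τ) * (1 + 216 * τ) * Ca p n x τ (C h) (fun j => C (γ j)) * fT p x1 (GC σ 0 K) +
        (1 + 216 * τ) * Cb p n x τ (C e) (fun j => C (γ j)) (fun j => C (ζ j)) * fT p x1 (GC σ 1 K) := by
    rw [sum_blocks, mul_sum, sum_congr rfl fun κ _ => key κ, hT, hT, mul_sum, mul_sum, ← sum_add_distrib]
    refine sum_congr rfl fun κ _ => ?_
    rw [pow_zero, one_mul, pow_one, map_mul, map_natCast C κ]
    ring
  rw [← e1, ← mul_sub]
  exact dvd_mul_of_dvd_right h1 _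

end sides

end Pool.Agent.H547.C9.Rel
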