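import Mathlib

set_option autoImplicit false

/-!
# The six congruences of MP_c9f782
-/

namespace Pool.Agent.H547.C9

open Finset

/-- `c_k = C(2k,k) C(3k,k) C(6k,3k)` -/
def c (k : ℕ) : ℕ := (2 * k).choose k * (3 * k).choose k * (6 * k).choose (3 * k)

/-- `∑_{k<p} (a k + b) c_k / m^k` -/
def T6 (a b m : ℤ) (p : ℕ) : ℚ := ∑ k ∈ range p, ((a : ℚ) * k + b) * (c k : ℚ) / (m : ℚ) ^ k

/-- `x ≡ y (mod p²)`: `p²` divides the numerator of `x - y` in lowest terms -/
def Cong (p : ℕ) (x y : ℚ) : Prop := (p : ℤ) ^ 2 ∣ (x - y).num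

/-- the six congruences for the prime `p` -/
def Six (p : ℕ) [Fact p.Prime] : Prop :=
  Cong p (T6 63 8 ((-15) ^ 3) p) (8 * p * legendreSym p (-15)) ∧
  (p ≠ 17 → Cong p (T6 133 8 (255 ^ 3) p) (8 * p * legendreSym p (-255))) ∧
  Cong p (T6 28 3 (20 ^ 3) p) (3 * p * legendreSym p (-5)) ∧
  (p ≠ 11 → Cong p (T6 63 5 (66 ^ 3) p) (5 * p * legendreSym p (-33))) ∧
  Cong p (T6 11 1 54000 p) (p * legendreSym p (-15)) ∧
  Cong p (T6 506 31 (-12288000) p) (31 * p * legendreSym p (-30))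

/-- **small primes** (by kernel computation; see `small_b`, `sa`, `sub` in `Pool/Agent/H547/P4/Tr.lean`, `R9f27ff.lean` for a fast way:
running integer sums, then one divisibility by `decide +kernel`; `legendreSym` by `norm_num`) -/
def S_h : Prop := ∀ (p : ℕ) [Fact p.Prime], 5 < p → p < 60 → Six p

end Pool.Agent.H547.C9
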