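import Pool.Agent.H547.Base

set_option autoImplicit false

/-!
# Statements for MP_c9f782 (six congruences mod p² for sums of C(2k,k)C(3k,k)C(6k,3k))

Congruence calculus: `Pool.Agent.R439.PL` (library module `Pool/Graph/R_seed8/R439/PLoc.lean`): `Zp p` is the subring of `ℚ` of
rationals with denominator prime to `p`, `I p k x` says `x ∈ p^k Zp`, `U p x` says that `x` is a unit of `Zp`.
All statements below are checked numerically.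
-/

namespace Pool.Agent.H547.C9

open Finset Pool.Agent.R439.PL

/-- `∑_{k<N} (a k + b) C(2k,k)³ z^k` -/
def SU (a b z : ℚ) (N : ℕ) : ℚ := ∑ k ∈ range N, (a * k + b) * (Nat.centralBinom k : ℚ) ^ 3 * z ^ k

/-- `∑_{k<N} (a k + b) C(2k,k)² C(3k,k) y^k` -/
def SV (a b y : ℚ) (N : ℕ) : ℚ := ∑ k ∈ range N, (a * k + b) * ((Nat.centralBinom k : ℚ) ^ 2 * ((3 * k).choose k : ℚ)) * y ^ k

/-- `w(k) = C(2k,k)/4^k` -/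
def w (k : ℕ) : ℚ := (Nat.centralBinom k : ℚ) / 4 ^ k

/-- **S_a**. Proof. Exact identity `SU 21 8 1 N = 4 N C(2N,N) T(N)`, `T(N) = ∑_{k<N} C(N+k-1,k)²`: by induction on `N` it suffices that
`8(2N+1) T(N+1) - 4N T(N) = (21N+8) C(2N,N)²` (as `(N+1) C(2N+2,N+1) = 2(2N+1) C(2N,N)`), and with `G k = (8k+12N) C(N+k-1,k-1)²`
(`G 0 = 0`) one has `8(2N+1) C(N+k,k)² - 4N C(N+k-1,k)² = G (k+1) - G k` for all `k` (`N ≥ 1`; use `N C(N+k,k) = (N+k) C(N+k-1,k)`,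
`N C(N+k-1,k-1) = k C(N+k-1,k)`), `G N = 5N C(2N,N)²`. Then mod `p` (prefactor `4N` is divisible by `p`): `C(p+k-1,k) ≡ 0` for `0<k<p`;
`C(2p+k-1,k) ≡ 0` for `k < 2p`, `p ∤ k`; `C(3p-1,p) ≡ 2`, `C(2p,p) ≡ 2`, `C(4p,2p) ≡ 6` (Lucas). So `T(p) ≡ 1`, `T(2p) ≡ 5 (mod p)`. -/
def S_a : Prop := ∀ (p : ℕ) [Fact p.Prime], 3 < p →
  I p 2 (SU 21 8 1 p - 8 * p) ∧ I p 2 (SU 21 8 1 (2 * p) - 240 * p)

/-- **S_b**. Proof. Exact identity `SU 3 1 (1/16) N = 2 N w(N) T(N)`, `T(N) = ∑_{m<N} w(m) C(N+m-1,m)`: by induction it suffices that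
`(2N+1) T(N+1) - 2N T(N) = (3N+1) C(2N,N) w(N)`; with `G k = 2 k w(k) C(N+k-1,k-1)` one has
`(2N+1) w(k) C(N+k,k) - 2N w(k) C(N+k-1,k) = G (k+1) - G k` (`N ≥ 1`), `G N = N w(N) C(2N,N)`. Then `w(m) ∈ Zp` and mod `p`:
`T(p) ≡ 1`, `T(2p) ≡ 1 + w(p) C(3p-1,p) ≡ 2`, `w(p) ≡ 1/2`, `w(2p) ≡ 3/8`. -/
def S_b : Prop := ∀ (p : ℕ) [Fact p.Prime], 3 < p →
  I p 2 (SU 3 1 (1 / 16) p - p) ∧ I p 2 (SU 3 1 (1 / 16) (2 * p) - 3 * p)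

/-- **S_c**. Proof. Exact identity `SU 3 1 (-1/8) N = 2 N w(N) T(N)`, `T(N) = ∑_{m<N} w(m) (-2)^m C(2N-1,m)`
(compare `Pool.Agent.H547.CV.S_C` and its proof in `Pool/Agent/H969/CV322/C.lean`: `P k = Ψ k k`, `Ψ k i = ∑_{m<i} F k m`,
`F l i = w l w i (-2)^i (2l)!/(i! (2l-1-i)!)`). Mod `p` (`p = 2n+1`): `C(2p-1,m) ≡ (-1)^m` for `m<p`, so
`T(p) ≡ ∑_{m<p} C(2m,m)/2^m ≡ ∑_m C(n,m) (-2)^m = (-1)^n` (`C(2m,m) ≡ (-4)^m C(n,m) mod p` for `m<p`); `C(4p-1,m) ≡ (-1)^m`,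
`C(4p-1,p+m) ≡ 3 (-1)^m`, `w(p+m) ≡ w(m)/2`, `(-2)^p ≡ -2` for `m<p`, so `T(2p) ≡ (-1)^n (1 + 3 (1/2) (-2)) = -2 (-1)^n`;
`w(p) ≡ 1/2`, `w(2p) ≡ 3/8`. -/
def S_c : Prop := ∀ (p : ℕ) [Fact p.Prime], 3 < p →
  I p 2 (SU 3 1 (-1 / 8) p - (-1) ^ (p / 2) * p) ∧ I p 2 (SU 3 1 (-1 / 8) (2 * p) + 3 * (-1) ^ (p / 2) * p)

/-- **S_d**. Proof. `p = 2n+1`. For `n<k<p` the term is `≡ 0 (mod p²)`. Exact identity
`∑_{k≤n} (4k+1) (-1)^k (1/2)_k (-n)_k (n+1)_k / (k! (n+3/2)_k (1/2-n)_k) = (-1)^n (2n+1)` (well-poised `₄F₃(-1)`; WZ in `n`), and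
`(-n)_k (n+1)_k = ∏_{j<k} ((j+1/2)² - p²/4)·(+1)`... up to sign conventions `(-n)_k (n+1)_k = ∏ (j-n)(j+n+1) = ∏ ((j+1/2)² - (n+1/2)²)`,
`(n+3/2)_k (1/2-n)_k = ∏_{j<k} ((j+1)² - p²/4)`, so the quotient is `≡ (1/2)_k²/k!² (mod p²)` for `k ≤ n`. (Any other proof, or a
library result for `∑ (4k+1) C(2k,k)³/(-64)^k`, is fine.) -/
def S_d : Prop := ∀ (p : ℕ) [Fact p.Prime], 3 < p → I p 2 (SU 4 1 (-1 / 64) p - (-1) ^ (p / 2) * p)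

/-- **S_f** (cubic series `-192`). The library has `∑_{k<p^a}` for all `a` (`Pool/Graph/R_seed8/Results/MP_096b72_nt/QOne.lean`) and the
integrality for all `N` (`MP_6a8d80_nt`), both through an exact formula `∑_{k<N} (5k+1) C(2k,k)² C(3k,k) (-192)^{N-1-k} = N C(2N,N) X(N)`
with an explicit sum `X(N)`; evaluate it for `N = p` and `N = 2p` modulo `p` (or any other way). `χ = (p/3)`. -/
def S_f : Prop := ∀ (p : ℕ) [Fact p.Prime], 3 < p →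
  I p 2 (SV 5 1 (-1 / 192) p - (if p % 3 = 1 then 1 else -1) * p) ∧
  I p 2 (SV 5 1 (-1 / 192) (2 * p) - 5 / 8 * (if p % 3 = 1 then 1 else -1) * p)

end Pool.Agent.H547.C9
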