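import Pool.Agent.H547.P4.T9
import Pool.Agent.H547.C9.Stm
import Pool.Agent.H547.C9.Six

set_option autoImplicit false

/-!
# Statements for MP_c9f782, second part: truncated sums in `ZMod (p^3)` and over dual numbers
-/

namespace Pool.Agent.H547.C9

open Finset PowerSeries Pool.Agent.H547.P3 Pool.Agent.H547.P4

/-- `C(2k,k)² C(3k,k)` -/
def v3 (k : ℕ) : ℕ := k.centralBinom ^ 2 * (3 * k).choose k

/-- `C(2k,k) C(3k,k)` -/
def h3 (k : ℕ) : ℕ := k.centralBinom * (3 * k).choose k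

noncomputable def phi (A : Type) [CommRing A] : A⟦X⟧ := PowerSeries.mk fun k => (h3 k : A)

/-- **S_Bf** (Clausen). Proof over `ℚ` (then `ℤ` by injectivity, then any `A` by `PowerSeries.map`; compare `pull_A` in
`Pool/Agent/H547/P3/Pull.lean`). Write `D = th` (`X d/dX`, `Pool/Agent/H547/P3/Der.lean`), `M = 1 - 27X`, `Q = 1 - 54X`, `f_k = v3 k`:
`(k+1)³ f_{k+1} = (108k³+162k²+78k+12) f_k`, `h3`: `(k+1)² h_{k+1} = 3(3k+1)(3k+2) h_k`, so `M D²φ = 27 X Dφ + 6 X φ`.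
Put `G_i = ∑_{k<K} k^i f_k (X M)^k`. Then `M D G_i = Q G_{i+1}` exactly, and mod `X^K`: `G_3 = X M (108 G_3 + 162 G_2 + 78 G_1 + 12 G_0)`, i.e.
`Q² G_3 = X M (162 G_2 + 78 G_1 + 12 G_0)` (`Q² = 1 - 108 X M`). The series `Γ_0 = φ²`, `Γ_1 = M DΓ_0/Q`, `Γ_2 = M DΓ_1/Q`, `Γ_3 = M DΓ_2/Q`
satisfy the same relations (check with `ring` from the equation of `φ`). Uniqueness: if `δ_0,δ_1,δ_2` have constant coefficient `0` and
satisfy the linear relations mod `X^K`, then by induction all coefficients below `K` vanish (`n δ_i[n] = δ_{i+1}[n] + lower terms`, `n ≥ 1`,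
`δ_3[n]` = lower terms). (Another proof of the coefficient identity, or a library result, is fine.) -/
def S_Bf : Prop := ∀ (A : Type) [CommRing A] (K : ℕ),
  X ^ K ∣ phi A ^ 2 - ∑ k ∈ range K, C (v3 k : A) * (X * (1 - 27 * X)) ^ k

/-- **S_Bc** (cubic transformation). Same method: `c_k = v1 k`, `(k+1)³ c_{k+1} = (1728k³+2592k²+1104k+120) c_k`, `L = 1 + 216X`,
`M = 1 - 27X`, `E = 1 - 540X - 5832X²`, `E² = L³ - 1728 X M³`, `σ² L = 1`, `D σ = -108 X σ/L`.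
`G_i = ∑_{k<K} k^i c_k (X M³)^k σ^(6k+1)`: `M L D G_i = E G_{i+1} - 108 X M G_i` exactly (as `1 - 81X/M - 648X/L = E/(ML)`), and mod `X^K`:
`E² G_3 = X M³ (2592 G_2 + 1104 G_1 + 120 G_0)`. The series `Γ_0 = φ²`, `Γ_{i+1} = (M L DΓ_i + 108 X M Γ_i)/E` satisfy the same relations
(use `M D²φ = 27 X Dφ + 6 X φ`). Uniqueness as in `S_Bf`. For `σ` over `ℤ` take coefficients `(-54)^n C(2n,n)`
(compare `sgZ`, `E_sq`, `cc` with `e = -54` in `Pull.lean`). -/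
def S_Bc : Prop := ∀ (A : Type) [CommRing A], ∃ σ : A⟦X⟧, σ ^ 2 * (1 + 216 * X) = 1 ∧ constantCoeff σ = 1 ∧
  ∀ K, X ^ K ∣ phi A ^ 2 - ∑ k ∈ range K, C (v1 k : A) * ((X * (1 - 27 * X) ^ 3) ^ k * σ ^ (6 * k + 1))

/-- **S_U** (uniqueness). Proof. `th (φ²) = 2 φ th φ`; `fT p x1 φ` has constant coefficient `1`, hence is a unit of `A⟦X⟧`; cancel it:
`X^(18p) ∣ 2 R1 fT(th φ) + R0 fT φ`. Now compare coefficients of `X^(j + pN)`, `j < p`, `N ≤ 17`, exactly as in `P3.R_zero`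
(`Pool/Agent/H547/P3/S5.lean`, `coeff_RF`) with the analogue of `P3.uniq` (`Uniq.lean`): if
`∑_{i≤8} [i ≤ N] h3(N-i) (a_i + (N-i) b_i) = 0` for all `N ≤ 17`, then all `a_i = b_i = 0` (`Cc = 8`; the polynomial `Qf` has degree
`≤ 2 Cc + 1 = 17`, with `ee l = 3 (3X-(3l+2)) (3X-(3l+1))` and `(X - i0)²`; recurrence `(k+1)² h3(k+1) = 3(3k+1)(3k+2) h3 k`). -/
def S_U : Prop := ∀ (A : Type) [CommRing A] (p : ℕ) [Fact p.Prime], 53 ≤ p → (∀ k : ℕ, 0 < k → k < p → IsUnit (k : A)) →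
  ∀ x1 : A, IsUnit x1 → ∀ R0 R1 : Polynomial A, R0.natDegree < 9 * p → R1.natDegree < 9 * p →
  X ^ (p * 18) ∣ (R1 : A⟦X⟧) * fT p x1 (th (phi A ^ 2)) + (R0 : A⟦X⟧) * fT p x1 (phi A ^ 2) → R0 = 0 ∧ R1 = 0

/-! ## the five congruences through `C(2k,k)³` -/

/-- weighted block sums `∑_j (a (pκ+j) + b) C(2(pκ+j),pκ+j)³ z^(pκ+j) / (C(2κ,κ)³ z^κ)` -/
noncomputable def WS (p : ℕ) (a b z : ZMod (p ^ 3)) (κ : ℕ) : ZMod (p ^ 3) :=
  (z ^ (p - 1)) ^ κ * ∑ j ∈ range p, (a * ((p : ZMod (p ^ 3)) * (κ : ZMod (p ^ 3)) + (j : ZMod (p ^ 3))) + b) * (Gu p j κ * z ^ j)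

/-- **S_E1**. Proof. `P4.star1A` over `A = DualNumber (ZMod (p^3))` (`φ = algebraMap`/`TrivSqZeroExt.inlHom`), with
`z0 = z (1 + ε)`, `z1 = z`, `e = z^(p-1) (1 + p ε)` (so `z0^p = z1 e`, `e = 1 + p(ν + ε + p ν ε)`), `l0 = 1 - 16 z0`, `l1 = l`.
Its `x` is `x̄ (1 + 8 z li ε)` with `x̄² = 1` (from `x² l0 = l1`), `gT1 .. 0` is `∑ v1 j w0^j` with `w0 = z0² li0³ = w (1 + (2+16z) li ε)`,
`w = z² li³`. The functional `L(x + yε) = a y + b x` maps `gS φ e z0 κ` to `WS p a b z κ`. Take `ε`- and real parts of the first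
equation of `star1A` and combine. (`red p x = (red p l)^n` from `x = l0^n (1 + p y)`.) -/
def S_E1 : Prop := ∀ (p n : ℕ) [Fact p.Prime] (h z l li : ZMod (p ^ 3)), 53 ≤ p → p = 2 * n + 1 → 2 * h = 1 → IsUnit z →
  l = 1 - 16 * z → l * li = 1 → ∃ x : ZMod (p ^ 3), x ^ 2 = 1 ∧ red p x = (red p l) ^ n ∧
    ∀ a b a' b' : ZMod (p ^ 3), a * (2 + 16 * z) = a' * l → b = b' - 8 * z * li * a →
    ∑ j ∈ range p, (a' * (j : ZMod (p ^ 3)) + b') * ((v1 j : ZMod (p ^ 3)) * (z ^ 2 * li ^ 3) ^ j) =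
      x * (WS p a b z 0 + 8 * z * li * c1 h (WS p a b z) + (8 * z + 64 * z ^ 2) * li ^ 2 * c2 h (WS p a b z))

/-- **S_E3** (Fricke with weights). Proof. As `P3.fricke` (`Fricke2.lean`), with weights. `ex h (WS p a b z) X =
pw h (pν) X ∑_j (a (pX + j) + b) gX h X j z^j` (`WS` is a product of quadratic functions; `ex_mul`, `ex_lin`). By `gX_top`, `gX_refl`, `gX_n` the sum over
`j ≤ n` becomes, with `j = n - k`, the sum over `k` of `gX h (-X-h) k z'^k` times `a (pX + n - k) + b =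
-(a (p(-X-h) + k) + (a h - b))` (as `n = (p-1)/2`, `p h + ... `: `pX + n - k = -(p(-X-h) + k) - h` since `n = p h - h`), and the
exponential factors are those of `fricke`. The `c` is that of `fricke`. -/
def S_E3 : Prop := ∀ (p n : ℕ) [Fact p.Prime] (h z z' : ZMod (p ^ 3)), 5 ≤ p → p = 2 * n + 1 → 2 * h = 1 →
  4096 * z * z' = 1 → ∃ c : ZMod (p ^ 3), c ^ 2 = 1 ∧ red p c = (-1) ^ n * (red p z) ^ n ∧
    ∀ a b : ZMod (p ^ 3),
      WS p a b z 0 = -c * (WS p a (a * h - b) z' 0 - h * c1 h (WS p a (a * h - b) z') + h ^ 2 * c2 h (WS p a (a * h - b) z')) ∧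
      c1 h (WS p a b z) = c * (c1 h (WS p a (a * h - b) z') - c2 h (WS p a (a * h - b) z'))

/-- all components of `WS` beyond the first two vanish mod `p²`; `WS 0`, `WS 1` in terms of sums. Easy. -/
def S_E2 : Prop := ∀ (p : ℕ) [Fact p.Prime] (h a b z : ZMod (p ^ 3)), 5 ≤ p → 2 * h = 1 → IsUnit z →
  (∃ y, c2 h (WS p a b z) = (p : ZMod (p ^ 3)) ^ 2 * y) ∧
  WS p a b z 0 = ∑ k ∈ range p, (a * (k : ZMod (p ^ 3)) + b) * ((uc k : ZMod (p ^ 3)) * z ^ k) ∧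
  8 * z * WS p a b z 1 = ∑ k ∈ range (2 * p), (a * (k : ZMod (p ^ 3)) + b) * ((uc k : ZMod (p ^ 3)) * z ^ k) - ∑ k ∈ range p, (a * (k : ZMod (p ^ 3)) + b) * ((uc k : ZMod (p ^ 3)) * z ^ k)

/-! ## the sixth congruence -/

/-- block ratios of `C(2k,k)² C(3k,k)` -/
noncomputable def P3c (p : ℕ) (N : ℕ) : ZMod (p ^ 3) := 6 * (2 * (N : ZMod (p ^ 3)) + 1) * (3 * N + 1) * (3 * N + 2)
noncomputable def Fc (p : ℕ) := HH p (P3c p)

def S_Fc : Prop := ∀ (p : ℕ) [Fact p.Prime], 5 ≤ p →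
  (∀ j < p, QP (p : ZMod (p ^ 3)) (fun κ => Fc p j κ)) ∧
  ∀ κ j, j < p → (v3 (p * κ + j) : ZMod (p ^ 3)) = v3 κ * Fc p j κ

/-- **S_R** (the relation over a ring with `p² = 0`; proof: helper547). -/
def S_R : Prop := ∀ (A : Type) [CommRing A] (p n : ℕ) [Fact p.Prime] (φ : ZMod (p ^ 3) →+* A) (x0 x1 e ν li mi : A),
  53 ≤ p → p = 2 * n + 1 → (p : A) ^ 2 = 0 → x0 ^ p = x1 * e → e = 1 + p * ν → IsUnit x1 →
  (1 + 216 * x0) * li = 1 → (1 - 27 * x1) * mi = 1 → IsUnit (1 - 54 * x1) → IsUnit (1 - 540 * x1 - 5832 * x1 ^ 2) →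
  ∃ χ : A, χ ^ 2 * (1 + 216 * x0) = 1 + 216 * x1 ∧ (∃ y, χ = (1 + 216 * x0) ^ n * (1 + p * y)) ∧
    (1 - 54 * x1) * (1 + 216 * x1) * (χ * ∑ j ∈ range p, φ (v1 j) * (x0 * (1 - 27 * x0) ^ 3 * li ^ 3) ^ j) =
      (1 - 54 * x1) * (1 + 216 * x1) * fam p (fun j κ => φ (Fc p j κ)) (e * (1 - 27 * x0) ^ p * mi) (x0 * (1 - 27 * x0)) 0 -
      108 * x1 * (1 - 27 * x1) * (fam p (fun j κ => φ (Fc p j κ)) (e * (1 - 27 * x0) ^ p * mi) (x0 * (1 - 27 * x0)) 1 -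
        fam p (fun j κ => φ (Fc p j κ)) (e * (1 - 27 * x0) ^ p * mi) (x0 * (1 - 27 * x0)) 0)

/-- five of the six congruences for large `p` -/
def Five (p : ℕ) [Fact p.Prime] : Prop :=
  Cong p (T6 63 8 ((-15) ^ 3) p) (8 * p * legendreSym p (-15)) ∧
  Cong p (T6 133 8 (255 ^ 3) p) (8 * p * legendreSym p (-255)) ∧
  Cong p (T6 28 3 (20 ^ 3) p) (3 * p * legendreSym p (-5)) ∧
  Cong p (T6 63 5 (66 ^ 3) p) (5 * p * legendreSym p (-33)) ∧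
  Cong p (T6 11 1 54000 p) (p * legendreSym p (-15))

end Pool.Agent.H547.C9
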